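import Pool.Agent.N20.KB.Ind
import Pool.Agent.Q90.WR.Bcj
import Pool.Agent.Q99.AS.Chain
import Pool.Agent.Q99.AS.Char
import Pool.Agent.N85.WM.Wpi
import Pool.Agent.R674.Ce.Congr

/-!
# Alternating sums of numbers of characters in blocks: direct products
-/

set_option autoImplicit false
set_option linter.unusedSectionVars false

open scoped Classical BigOperators

noncomputable section

namespace Pool.Agent.N20.KB

open Pool.Agent.Y63.NV
open Pool.Agent.Y63.KR
open Pool.Agent.Y63.AWC (IsIrreducibleCharacter)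
open Pool.Agent.R674.Ce
open Pool.Agent.R674.KB (kdimh kfilt kblk)
open Pool.Agent.Q99.AS
open Pool.Agent.Helper884.IC (IsIrrChar)
open Pool.Agent.H254R3.IN (omega)
open Pool.Agent.N85.WM (IsIdem)
open Pool.Agent.N85.WM.Wpi (omega_out omega_conj omega_int)

variable {F : Type} [Field F] (red : integralClosure ℤ ℂ →+* F)

section iso

variable {J K : Type} [Group J] [Group K] [Finite J] [Finite K]

theorem irr_comp' (e : J ≃* K) {χ : K → ℂ} (h : IsIrreducibleCharacter χ) :
    IsIrreducibleCharacter (fun x => χ (e x)) := Pool.Agent.Y63.AWC.irr_comp e h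

/-- invariance under isomorphisms -/
theorem knum_iso (e : J ≃* K) {f : K → F} (hf : IsClassFun f) (c : F) :
    Knum red (fun x => f (e x)) c = Knum red f c := by
  unfold Knum
  refine Nat.card_congr
    { toFun := fun χ => ⟨fun x => χ.1 (e.symm x), irr_comp' e.symm χ.2.1, ?_⟩
      invFun := fun χ => ⟨fun x => χ.1 (e x), irr_comp' e χ.2.1, ?_⟩
      left_inv := fun χ => Subtype.ext (by funext x; simp)
      right_inv := fun χ => Subtype.ext (by funext x; simp) }
  · have h1 := Pool.Agent.Y286.NV.centralValue_comp red e (fun x => χ.1 (e.symm x))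
      (Pool.Agent.Y286.NV.irr_class (irr_comp' e.symm χ.2.1)) f hf
    have h2 : (fun x => χ.1 (e.symm (e x))) = χ.1 := by
      funext x
      rw [e.symm_apply_apply]
    rw [h2, χ.2.2] at h1
    exact h1.symm
  · rw [Pool.Agent.Y286.NV.centralValue_comp red e χ.1
      (Pool.Agent.Y286.NV.irr_class χ.2.1) f hf]
    exact χ.2.2

end iso

theorem aa_congr {p : ℕ} {Δ Γ : Type} [Group Δ] [Group Γ] [Finite Δ] [Finite Γ] (e : Δ ≃* Γ)
    {z : Γ → F} (hz : IsClassFun z) (c : F) :
    AA p red Δ (fun x => z (e x)) c = AA p red Γ z c := by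
  have hinj : Function.Injective (fun P : Subgroup Δ => P.map e.toMonoidHom) :=
    Subgroup.map_injective e.injective
  have hle : ∀ P Q : Subgroup Δ, P.map e.toMonoidHom ≤ Q.map e.toMonoidHom ↔ P ≤ Q := fun P Q =>
    Subgroup.map_le_map_iff_of_injective e.injective
  have hback : ∀ P : Subgroup Γ, (P.comap e.toMonoidHom).map e.toMonoidHom = P := fun P =>
    Subgroup.map_comap_eq_self_of_surjective e.surjective P
  unfold AA
  refine finsum_eq_of_bijective (fun σ : {σ : Set (Subgroup Δ) // IsPChain p σ} =>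
    (⟨(fun P : Subgroup Δ => P.map e.toMonoidHom) '' σ.1, ⟨?_, ?_, ?_⟩⟩ :
      {σ : Set (Subgroup Γ) // IsPChain p σ})) ⟨?_, ?_⟩ ?_
  · rintro _ ⟨P, hP, rfl⟩ _ ⟨Q, hQ, rfl⟩ _
    rcases σ.2.chain.total hP hQ with h | h
    · exact Or.inl ((hle P Q).2 h)
    · exact Or.inr ((hle Q P).2 h)
  · rintro _ ⟨P, hP, rfl⟩
    exact (σ.2.isPGroup P hP).map _
  · rintro _ ⟨P, hP, rfl⟩ h
    exact σ.2.ne_bot P hP ((Subgroup.map_eq_bot_iff_of_injective P e.injective).1 h)
  · intro σ τ h
    have h1 := congrArg Subtype.val h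
    exact Subtype.ext (hinj.image_injective h1)
  · rintro ⟨τ, h1, h2, h3⟩
    refine ⟨⟨(fun P : Subgroup Γ => P.comap e.toMonoidHom) '' τ, ⟨?_, ?_, ?_⟩⟩, ?_⟩
    · rintro _ ⟨P, hP, rfl⟩ _ ⟨Q, hQ, rfl⟩ _
      rcases h1.total hP hQ with h | h
      · exact Or.inl (Subgroup.comap_mono h)
      · exact Or.inr (Subgroup.comap_mono h)
    · rintro _ ⟨P, hP, rfl⟩
      exact (h2 P hP).comap_of_injective _ e.injective
    · rintro _ ⟨P, hP, rfl⟩ h
      apply h3 P hP
      rw [← hback P]
      change (P.comap e.toMonoidHom).map e.toMonoidHom = ⊥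
      rw [show P.comap e.toMonoidHom = ⊥ from h, Subgroup.map_bot]
    · apply Subtype.ext
      change (fun P : Subgroup Δ => P.map e.toMonoidHom) ''
        ((fun P : Subgroup Γ => P.comap e.toMonoidHom) '' τ) = τ
      rw [← Set.image_comp]
      ext P
      constructor
      · rintro ⟨Q, hQ, rfl⟩
        change (Q.comap e.toMonoidHom).map e.toMonoidHom ∈ τ
        rw [hback]
        exact hQ
      · intro hP
        exact ⟨P, hP, hback P⟩
  · intro σ
    have hst : ∀ x : Δ, x ∈ chainStabilizer σ.1 ↔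
        e x ∈ chainStabilizer ((fun P : Subgroup Δ => P.map e.toMonoidHom) '' σ.1) := by
      intro x
      rw [mem_chainStabilizer, mem_chainStabilizer]
      constructor
      · rintro h _ ⟨P, hP, rfl⟩
        change conjSub (e x) (P.map e.toMonoidHom) = P.map e.toMonoidHom
        rw [conjSub_map_equiv, h P hP]
      · intro h P hP
        have h4 := h _ ⟨P, hP, rfl⟩
        change conjSub (e x) (P.map e.toMonoidHom) = P.map e.toMonoidHom at h4
        rw [conjSub_map_equiv] at h4
        exact hinj h4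
    have hmap : (chainStabilizer σ.1).map e.toMonoidHom =
        chainStabilizer ((fun P : Subgroup Δ => P.map e.toMonoidHom) '' σ.1) := by
      ext y
      rw [Subgroup.mem_map]
      constructor
      · rintro ⟨x, hx, rfl⟩
        exact (hst x).1 hx
      · intro hy
        refine ⟨e.symm y, (hst _).2 ?_, e.apply_symm_apply y⟩
        rw [e.apply_symm_apply]
        exact hy
    let e' : chainStabilizer σ.1 ≃*
        chainStabilizer ((fun P : Subgroup Δ => P.map e.toMonoidHom) '' σ.1) :=
      ((chainStabilizer σ.1).equivMapOfInjective e.toMonoidHom e.injective).trans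
        (MulEquiv.subgroupCongr hmap)
    change _ = (-1) ^ ((fun P : Subgroup Δ => P.map e.toMonoidHom) '' σ.1).ncard *
      ((Nat.card (chainStabilizer ((fun P : Subgroup Δ => P.map e.toMonoidHom) '' σ.1)) : ℤ) *
        Knum red (fun x : chainStabilizer ((fun P : Subgroup Δ => P.map e.toMonoidHom) '' σ.1) =>
          z x) c)
    rw [Set.ncard_image_of_injective _ hinj, ← Nat.card_congr e'.toEquiv,
      ← knum_iso red e' (f := fun x => z x) (fun g x => hz g x) c]
    rfl

/-- the alternating sum `∑_σ (-1)^|σ| #{χ ∈ Irr(G_σ) : ω_χ(z) = c}` -/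
def aB (p : ℕ) (G : Type) [Group G] (z : G → F) (c : F) : ℤ :=
  alternatingSum p G (fun H => (Knum red (fun x : H => z x) c : ℤ))

section alt

variable {p : ℕ} {G : Type} [Group G] [Finite G]

theorem conjInv_knum {z : G → F} (hz : IsClassFun z) (c : F) :
    ConjInv (fun H : Subgroup G => (Knum red (fun x : H => z x) c : ℤ)) := by
  intro g H
  let e : H ≃* conjSub g H := H.equivMapOfInjective _ (MulAut.conj g).injective
  have h := knum_iso red e (f := fun x : conjSub g H => z x) (fun a x => hz a x) c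
  have h2 : (fun x : H => z (e x)) = fun x : H => z x := by
    funext x
    exact hz g x
  change ((Knum red (fun x : conjSub g H => z x) c : ℕ) : ℤ) = (Knum red (fun x : H => z x) c : ℕ)
  rw [← h, h2]

theorem aa_aB {z : G → F} (hz : IsClassFun z) (c : F) :
    AA p red G z c = (Nat.card G : ℤ) * aB red p G z c := by
  have h := Pool.Agent.Q90.WR.card_mul_alternatingSum' (p := p)
    (fun H : Subgroup G => (Knum red (fun x : H => z x) c : ℤ)) (conjInv_knum red hz c)
  unfold aB
  rw [h]
  unfold AA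
  rw [finsum_eq_sum_of_fintype]

theorem isCh_bot' (σ : Set (Subgroup G)) :
    IsCh p (⊥ : Subgroup G) σ ↔ IsPChain p σ := by
  constructor
  · intro h
    exact ⟨h.chain, h.isPGroup, fun P hP => (h.lt P hP).ne'⟩
  · intro h
    exact ⟨h.chain, h.isPGroup, fun P hP => bot_lt_iff_ne_bot.2 (h.ne_bot P hP)⟩

theorem alt_eq' [Fact p.Prime] {f : Subgroup G → ℤ} (hf : ConjInv f) :
    alternatingSum p G f = altSum p (⊥ : Subgroup G) f := by
  have _i2 : Fintype {σ : Set (Subgroup G) // IsCh p (⊥ : Subgroup G) σ} := Fintype.ofFinite _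
  have h1 := Pool.Agent.Q90.WR.card_mul_alternatingSum' (p := p) f hf
  have h2 := card_mul_altSum (p := p) (O := (⊥ : Subgroup G)) inferInstance f hf
  have h3 : (∑ σ : Pool.Agent.Q90.WR.Ch p G,
      (-1) ^ σ.1.ncard * ((Nat.card (chainStabilizer σ.1) : ℤ) * f (chainStabilizer σ.1))) =
      ∑ σ : {σ : Set (Subgroup G) // IsCh p (⊥ : Subgroup G) σ},
      (-1) ^ σ.1.ncard * ((Nat.card (chainStabilizer σ.1) : ℤ) * f (chainStabilizer σ.1)) :=
    Fintype.sum_equiv (Equiv.subtypeEquivRight fun σ => (isCh_bot' σ).symm) _ _ fun σ => rfl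
  rw [h3, ← h2] at h1
  exact mul_left_cancel₀ (by exact_mod_cast Nat.card_pos.ne') h1

end alt

/-! ### central characters of direct products -/

section prod

variable {A B : Type} [Group A] [Group B] [Finite A] [Finite B]

theorem isConj_prod {x y : A × B} : IsConj x y ↔ IsConj x.1 y.1 ∧ IsConj x.2 y.2 := by
  simp only [isConj_iff]
  constructor
  · rintro ⟨c, hc⟩
    exact ⟨⟨c.1, congrArg Prod.fst hc⟩, ⟨c.2, congrArg Prod.snd hc⟩⟩
  · rintro ⟨⟨c, hc⟩, ⟨d, hd⟩⟩
    exact ⟨(c, d), Prod.ext hc hd⟩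

/-- the conjugacy classes of a direct product -/
def ccP : ConjClasses (A × B) ≃ ConjClasses A × ConjClasses B where
  toFun C := (ConjClasses.map (MonoidHom.fst A B) C, ConjClasses.map (MonoidHom.snd A B) C)
  invFun D := ConjClasses.mk (D.1.out, D.2.out)
  left_inv C := by
    obtain ⟨x, rfl⟩ := ConjClasses.exists_rep C
    rw [ConjClasses.mk_eq_mk_iff_isConj, isConj_prod]
    exact ⟨ConjClasses.mk_eq_mk_iff_isConj.mp (Quotient.out_eq _),
      ConjClasses.mk_eq_mk_iff_isConj.mp (Quotient.out_eq _)⟩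
  right_inv D := Prod.ext (Quotient.out_eq D.1) (Quotient.out_eq D.2)

theorem omega_ten (θ : A → ℂ) (ψ : B → ℂ) (x : A × B) :
    omega (ten θ ψ) x = omega θ x.1 * omega ψ x.2 := by
  unfold omega
  have h : Nat.card {y : A × B // IsConj x y} =
      Nat.card {y : A // IsConj x.1 y} * Nat.card {y : B // IsConj x.2 y} := by
    rw [← Nat.card_prod]
    refine Nat.card_congr
      { toFun := fun y => (⟨y.1.1, (isConj_prod.1 y.2).1⟩, ⟨y.1.2, (isConj_prod.1 y.2).2⟩)
        invFun := fun y => ⟨(y.1.1, y.2.1), isConj_prod.2 ⟨y.1.2, y.2.2⟩⟩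
        left_inv := fun y => rfl
        right_inv := fun y => rfl }
  rw [h]
  have h1 : ten θ ψ 1 = θ 1 * ψ 1 := rfl
  have h2 : ten θ ψ x = θ x.1 * ψ x.2 := rfl
  rw [h1, h2]
  push_cast
  rw [div_mul_div_comm]
  ring

theorem cv_ten {θ : A → ℂ} {ψ : B → ℂ} (h1 : IsIrrChar θ) (h2 : IsIrrChar ψ)
    {f : A → F} (hf : IsClassFun f) {g : B → F} (hg : IsClassFun g) :
    centralValue red (ten θ ψ) (fun x => f x.1 * g x.2) =
      centralValue red θ f * centralValue red ψ g := by
  have _i1 : Fintype (ConjClasses A) := Fintype.ofFinite _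
  have _i2 : Fintype (ConjClasses B) := Fintype.ofFinite _
  have _i3 : Fintype (ConjClasses (A × B)) := Fintype.ofFinite _
  have _i4 : Fintype A := Fintype.ofFinite _
  have _i5 : Fintype B := Fintype.ofFinite _
  have hirr : IsIrreducibleCharacter (ten θ ψ) := ten_irr h1 h2
  unfold centralValue
  rw [finsum_eq_sum_of_fintype, finsum_eq_sum_of_fintype, finsum_eq_sum_of_fintype,
    Finset.sum_mul_sum, ← Finset.sum_product', Finset.univ_product_univ]
  refine Fintype.sum_equiv ccP _ _ fun C => ?_
  have hc : IsConj C.out ((ccP C).1.out, (ccP C).2.out) := by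
    rw [← ConjClasses.mk_eq_mk_iff_isConj]
    have h3 : ConjClasses.mk C.out = C := Quotient.out_eq _
    rw [h3]
    exact (ccP.left_inv C).symm
  have h3 : f (C.out).1 = f (ccP C).1.out :=
    Pool.Agent.Y624.NV.class_isConj hf (isConj_prod.1 hc).1
  have h4 : g (C.out).2 = g (ccP C).2.out :=
    Pool.Agent.Y624.NV.class_isConj hg (isConj_prod.1 hc).2
  have h5 : (fun x : A × B => f x.1 * g x.2) C.out =
      f (ccP C).1.out * g (ccP C).2.out := by
    change f (C.out).1 * g (C.out).2 = _
    rw [h3, h4]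
  rw [omega_out, omega_out, omega_out,
    omega_conj (Pool.Agent.Y624.NV.irr_class hirr) hc, omega_ten,
    Pool.Agent.Y930.NV.redC_mul red (omega_int h1 _) (omega_int h2 _), h5]
  ring

/-- the values of the central characters of the subgroups -/
theorem fin_values (e : A → F) :
    {t : F | ∃ H : Subgroup A, ∃ θ : H → ℂ, IsIrrChar θ ∧
      centralValue red θ (fun x : H => e x) = t}.Finite := by
  have h : {t : F | ∃ H : Subgroup A, ∃ θ : H → ℂ, IsIrrChar θ ∧
      centralValue red θ (fun x : H => e x) = t} = ⋃ H : Subgroup A,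
      (fun θ : H → ℂ => centralValue red θ (fun x : H => e x)) '' {θ | IsIrrChar θ} := by
    ext t
    simp only [Set.mem_setOf_eq, Set.mem_iUnion, Set.mem_image]
  rw [h]
  refine Set.finite_iUnion fun H => Set.Finite.image _ ?_
  exact (Pool.Agent.Y914.NV.irr ℂ H).1.subset fun θ hθ => hθ

theorem cl_res {e : A → F} (he : IsClassFun e) (H : Subgroup A) :
    IsClassFun (fun x : H => e x) := fun g x => he g x

variable {p : ℕ} [hp : Fact p.Prime] [IsAlgClosed F] [CharP F p]

/-- only the values `0` and `1` occur -/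
theorem aB_zero {e : A → F} (he : IsIdem e) {t : F} (h0 : t ≠ 0) (h1 : t ≠ 1) :
    aB red p A e t = 0 := by
  unfold aB alternatingSum
  refine finsum_eq_zero_of_forall_eq_zero fun c => ?_
  have h2 : Knum red (fun x : chainStabilizer c.out.1 => e x) t = 0 := by
    unfold Knum
    rw [Nat.card_eq_zero]
    left
    constructor
    rintro ⟨χ, hχ, hv⟩
    have h3 := kblk p F red A c.out.1 χ c.out.2 hχ
    rcases he.val _ h3 with h4 | h4
    · exact h0 (hv.symm.trans h4)
    · exact h1 (hv.symm.trans h4)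
  change (-1) ^ c.out.1.ncard * ((Knum red (fun x : chainStabilizer c.out.1 => e x) t : ℕ) : ℤ) = 0
  rw [h2, Nat.cast_zero, mul_zero]

/-- **the alternating sum is multiplicative** -/
theorem aB_prod {e : A → F} (he : IsIdem e) {e' : B → F} (he' : IsClassFun e') :
    aB red p (A × B) (fun x => e x.1 * e' x.2) 1 = aB red p A e 1 * aB red p B e' 1 := by
  have hcl : IsClassFun (fun x : A × B => e x.1 * e' x.2) := fun g x => by
    change e (g.1 * x.1 * g.1⁻¹) * e' (g.2 * x.2 * g.2⁻¹) = e x.1 * e' x.2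
    rw [he.cl, he']
  let T : Finset F := (fin_values red e).toFinset.filter (· ≠ 0)
  have hT : ∀ t, t ∈ T ↔ (∃ H : Subgroup A, ∃ θ : H → ℂ, IsIrrChar θ ∧
      centralValue red θ (fun x : H => e x) = t) ∧ t ≠ 0 := by
    intro t
    rw [Finset.mem_filter, Set.Finite.mem_toFinset]
    rfl
  have key : ∀ (H : Subgroup A) (K : Subgroup B),
      ((Knum red (fun x : H.prod K => (fun x : A × B => e x.1 * e' x.2) x) 1 : ℕ) : ℤ) =
      ∑ t ∈ T, ((Knum red (fun x : H => e x) t : ℕ) : ℤ) *
        ((Knum red (fun x : K => e' x) t⁻¹ : ℕ) : ℤ) := by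
    intro H K
    have h1 := knum_iso red (Subgroup.prodEquiv H K)
      (f := fun x : H × K => e x.1 * e' x.2) (fun g x => by
        change e (g.1 * x.1 * (g.1 : A)⁻¹) * e' (g.2 * x.2 * (g.2 : B)⁻¹) = e x.1 * e' x.2
        rw [he.cl, he']) 1
    have h2 : (fun x : H.prod K => (fun x : A × B => e x.1 * e' x.2) x) =
        fun x : H.prod K => (fun x : H × K => e x.1 * e' x.2) (Subgroup.prodEquiv H K x) := rfl
    rw [h2, h1]
    have _i1 : Fintype H := Fintype.ofFinite H
    have _i2 : Fintype K := Fintype.ofFinite K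
    have h3 := card_prod T (fun χ : H × K → ℂ =>
        centralValue red χ (fun x : H × K => e x.1 * e' x.2) = 1)
      (fun t (θ : H → ℂ) => centralValue red θ (fun x : H => e x) = t)
      (fun t (ψ : K → ℂ) => centralValue red ψ (fun x : K => e' x) = t⁻¹) (by
        intro θ ψ hθ hψ
        rw [cv_ten red hθ hψ (cl_res he.cl H) (cl_res he' K)]
        constructor
        · intro h
          have h4 : centralValue red θ (fun x : H => e x) ≠ 0 := by
            intro h5
            rw [h5, zero_mul] at h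
            exact zero_ne_one h
          exact ⟨_, (hT _).2 ⟨⟨H, θ, hθ, rfl⟩, h4⟩, rfl, eq_inv_of_mul_eq_one_right h⟩
        · rintro ⟨t, ht, h5, h6⟩
          rw [h5, h6, mul_inv_cancel₀ ((hT t).1 ht).2])
      (fun θ ψ i _ j _ h5 _ h6 _ => h5.symm.trans h6)
    have h4 : Knum red (fun x : H × K => e x.1 * e' x.2) 1 = Nat.card {χ : H × K → ℂ //
        IsIrrChar χ ∧ centralValue red χ (fun x : H × K => e x.1 * e' x.2) = 1} := rfl
    rw [h4, h3]
    push_cast
    rfl
  have h := altSum_prod (p := p) (O₁ := (⊥ : Subgroup A)) (O₂ := (⊥ : Subgroup B))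
    IsPGroup.of_bot IsPGroup.of_bot inferInstance inferInstance T
    (fun H : Subgroup (A × B) =>
      (Knum red (fun x : H => (fun x : A × B => e x.1 * e' x.2) x) 1 : ℤ))
    (fun t (H : Subgroup A) => (Knum red (fun x : H => e x) t : ℤ))
    (fun t (H : Subgroup B) => (Knum red (fun x : H => e' x) t⁻¹ : ℤ))
    (conjInv_knum red hcl 1)
    (fun t => conjInv_knum red he.cl t) (fun t => conjInv_knum red he' _) key
  rw [Subgroup.bot_prod_bot] at h
  have e1 : ∀ (G : Type) [Group G] [Finite G] (z : G → F) (hz : IsClassFun z) (c : F),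
      altSum p (⊥ : Subgroup G) (fun H : Subgroup G => (Knum red (fun x : H => z x) c : ℤ)) =
        aB red p G z c := fun G _ _ z hz c => (alt_eq' (conjInv_knum red hz c)).symm
  rw [e1 (A × B) _ hcl] at h
  rw [h]
  by_cases h1 : (1 : F) ∈ T
  · rw [Finset.sum_eq_single (1 : F)]
    · rw [e1 A e he.cl, inv_one, e1 B e' he']
    · intro t ht ht1
      rw [e1 A e he.cl, aB_zero red he ((hT t).1 ht).2 ht1, zero_mul]
    · intro h2
      exact absurd h1 h2
  · rw [Finset.sum_eq_zero]
    · have h2 : aB red p A e 1 = 0 := by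
        unfold aB alternatingSum
        refine finsum_eq_zero_of_forall_eq_zero fun c => ?_
        have h2 : Knum red (fun x : chainStabilizer c.out.1 => e x) 1 = 0 := by
          unfold Knum
          rw [Nat.card_eq_zero]
          left
          constructor
          rintro ⟨χ, hχ, hv⟩
          exact h1 ((hT 1).2 ⟨⟨_, χ, hχ, hv⟩, one_ne_zero⟩)
        change (-1) ^ c.out.1.ncard *
          ((Knum red (fun x : chainStabilizer c.out.1 => e x) 1 : ℕ) : ℤ) = 0
        rw [h2, Nat.cast_zero, mul_zero]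
      rw [h2, zero_mul]
    · intro t ht
      have ht1 : t ≠ 1 := by
        rintro rfl
        exact h1 ht
      rw [e1 A e he.cl, aB_zero red he ((hT t).1 ht).2 ht1, zero_mul]

theorem aB_iso {G H : Type} [Group G] [Group H] [Finite G] [Finite H] (φ : G ≃* H) {z : H → F}
    (hz : IsClassFun z) (c : F) : aB red p G (fun x => z (φ x)) c = aB red p H z c := by
  have hz' : IsClassFun (fun x : G => z (φ x)) := fun g x => by
    simp only [map_mul, map_inv]
    exact hz _ _
  have h := aa_congr (p := p) red φ hz c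
  rw [aa_aB red hz', aa_aB red hz, Nat.card_congr φ.toEquiv] at h
  exact mul_left_cancel₀ (by exact_mod_cast Nat.card_pos.ne') h

theorem cl_tens {ι : Type} [Fintype ι] {e : A → F} (he : IsClassFun e) :
    IsClassFun (fun x : ι → A => ∏ i, e (x i)) := fun g x =>
  Finset.prod_congr rfl fun i _ => he (g i) (x i)

theorem aB_fin {e : A → F} (he : IsIdem e) (n : ℕ) :
    aB red p (Fin (n + 1) → A) (fun x => ∏ i, e (x i)) 1 = aB red p A e 1 ^ (n + 1) := by
  induction n with
  | zero =>
    rw [zero_add, pow_one]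
    have h := aB_iso (p := p) red (MulEquiv.piUnique (fun _ : Fin 1 => A)) he.cl 1
    rw [← h]
    congr 1
    funext x
    rw [Fin.prod_univ_one]
    rfl
  | succ n ih =>
    rw [pow_succ', ← ih, ← aB_prod red he (cl_tens he.cl)]
    let φ : (Fin (n + 2) → A) ≃* A × (Fin (n + 1) → A) :=
      { toFun := fun x => (x 0, fun i => x i.succ)
        invFun := fun y => Fin.cons y.1 y.2
        left_inv := fun x => by
          funext i
          refine Fin.cases ?_ (fun j => ?_) i
          · rfl
          · rfl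
        right_inv := fun y => rfl
        map_mul' := fun x y => rfl }
    have h := aB_iso (p := p) red φ (z := fun x : A × (Fin (n + 1) → A) =>
      e x.1 * ∏ i, e (x.2 i)) (fun g x => by
        change e (g.1 * x.1 * g.1⁻¹) * (∏ i, e (g.2 i * x.2 i * (g.2 i)⁻¹)) = _
        rw [he.cl, Finset.prod_congr rfl fun i _ => he.cl (g.2 i) (x.2 i)]) 1
    rw [← h]
    congr 1
    funext x
    rw [Fin.prod_univ_succ]
    rfl

theorem aB_zmod {e : A → F} (he : IsIdem e) :
    aB red p (ZMod p → A) (fun x => ∏ i, e (x i)) 1 = aB red p A e 1 ^ p := by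
  obtain ⟨n, hn⟩ : ∃ n, p = n + 1 := ⟨p - 1, by have := hp.out.pos; omega⟩
  have h := aB_fin (p := p) red he n
  rw [← hn] at h
  rw [← h]
  have h2 := aB_iso (p := p) red
    (MulEquiv.arrowCongr (ZMod.finEquiv p).symm.toEquiv (MulEquiv.refl A))
    (cl_tens (ι := Fin p) he.cl) 1
  rw [← h2]
  congr 1
  funext x
  exact (Fintype.prod_equiv (ZMod.finEquiv p).toEquiv _ _ fun i => rfl).symm

end prod

end Pool.Agent.N20.KB
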