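import Pool.Agent.N20.KB.Frob
import Pool.Agent.R674.KB.Dz
import Pool.Agent.N85.WM.Sep

/-!
# Counting in blocks and counting with one class function
-/

set_option autoImplicit false
set_option linter.unusedSectionVars false

open scoped Classical BigOperators

noncomputable section

namespace Pool.Agent.N20.KB

open Pool.Agent.Y63.NV
open Pool.Agent.Y63.KR
open Pool.Agent.Y63.AWC (IsIrreducibleCharacter)
open Pool.Agent.R674.KB (kblk)
open Pool.Agent.N85.WM (IsIdem BEq exists_idem cnt_mod card_sig ind_iff)

variable {F : Type} [Field F] (red : integralClosure ℤ ℂ →+* F)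

/-- the pairs of a class of chains of given parity and a character of the stabiliser -/
def XC (p : ℕ) (G : Type) [Group G] (ε : Prop) : Type :=
  Σ q : {q : Quotient (chainSetoid p G) // Even q.out.1.ncard ↔ ε},
    {χ : chainStabilizer q.1.out.1 → ℂ // IsIrreducibleCharacter χ}

/-- the characters of defect zero -/
def YD (p : ℕ) (G : Type) [Group G] : Type := {χ : G → ℂ // IsWt p (⊥ : Subgroup G) χ}

/-- the block of a pair -/
def bX {p : ℕ} {G : Type} [Group G] {ε : Prop} (x : XC p G ε) : (G → F) → F :=
  fun f => centralValue red x.2.1 (fun y => f y)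

/-- the block of a character of defect zero -/
def bD {p : ℕ} {G : Type} [Group G] (x : YD p G) : (G → F) → F :=
  fun f => centralValue red x.1 f

variable {p : ℕ} {G : Type} [Group G] [Finite G]

instance fin_irr (H : Type) [Group H] [Finite H] :
    Finite {χ : H → ℂ // IsIrreducibleCharacter χ} :=
  ((Pool.Agent.Y914.NV.irr ℂ H).1.subset fun _ h => h).to_subtype

instance fin_chain : Finite (Quotient (chainSetoid p G)) := Quotient.finite _

instance fin_XC (ε : Prop) : Finite (XC p G ε) := by
  unfold XC
  infer_instance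

instance fin_YD : Finite (YD p G) :=
  ((Pool.Agent.Y914.NV.irr ℂ G).1.subset fun _ (h : IsWt p (⊥ : Subgroup G) _) => h.irr).to_subtype

/-- the number of characters of `H` with a property of the central character -/
def nP' (P : ((G → F) → F) → Prop) (H : Subgroup G) : ℕ :=
  Nat.card {χ : H → ℂ // IsIrreducibleCharacter χ ∧ P (fun f => centralValue red χ (fun x => f x))}

theorem card_XC (P : ((G → F) → F) → Prop) (ε : Prop)
    [Fintype (Quotient (chainSetoid p G))] :
    Nat.card {x : XC p G ε // P (bX red x)} = ∑ q : Quotient (chainSetoid p G),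
      if (Even q.out.1.ncard ↔ ε) then nP' red P (chainStabilizer q.out.1) else 0 := by
  have h := card_sig (fun q : {q : Quotient (chainSetoid p G) // Even q.out.1.ncard ↔ ε} =>
    {χ : chainStabilizer q.1.out.1 → ℂ // IsIrreducibleCharacter χ})
    (fun x => P (bX red x))
  have _i : Fintype {q : Quotient (chainSetoid p G) // Even q.out.1.ncard ↔ ε} :=
    Fintype.ofFinite _
  refine Eq.trans h ?_
  rw [finsum_eq_sum_of_fintype, ← Finset.sum_filter]
  have h2 := Finset.sum_subtype (F := _i) (p := fun q : Quotient (chainSetoid p G) =>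
    (Even q.out.1.ncard ↔ ε)) (Finset.univ.filter (fun q : Quotient (chainSetoid p G) =>
      (Even q.out.1.ncard ↔ ε))) (by simp)
    (fun q => nP' red P (chainStabilizer q.out.1))
  rw [h2]
  refine Finset.sum_congr rfl fun q _ => ?_
  unfold nP'
  exact Nat.card_congr
    { toFun := fun t => ⟨t.1.1, t.1.2, t.2⟩
      invFun := fun t => ⟨⟨t.1, t.2.1⟩, t.2.2⟩
      left_inv := fun t => rfl
      right_inv := fun t => rfl }

/-- the alternating sum as a difference -/
theorem alt_cnt (P : ((G → F) → F) → Prop) :
    alternatingSum p G (fun H => (nP' red P H : ℤ)) =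
      (Nat.card {x : XC p G True // P (bX red x)} : ℤ) -
        Nat.card {x : XC p G False // P (bX red x)} := by
  have _i : Fintype (Quotient (chainSetoid p G)) := Fintype.ofFinite _
  rw [card_XC, card_XC]
  unfold alternatingSum
  rw [finsum_eq_sum_of_fintype]
  push_cast
  rw [← Finset.sum_sub_distrib]
  refine Finset.sum_congr rfl fun q _ => ?_
  by_cases h : Even q.out.1.ncard
  · rw [h.neg_one_pow, if_pos (iff_of_true h trivial), if_neg (fun h2 => h2.1 h)]
    ring
  · rw [(Nat.not_even_iff_odd.1 h).neg_one_pow, if_neg (fun h2 => h (h2.2 trivial)),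
      if_pos (iff_of_false h id)]
    ring

/-- the block of an element of the sum type -/
def bY (y : XC p G False ⊕ YD p G) : (G → F) → F := Sum.elim (bX red) (bD red) y

theorem card_Y (P : ((G → F) → F) → Prop) :
    Nat.card {y : XC p G False ⊕ YD p G // P (bY red y)} =
      Nat.card {x : XC p G False // P (bX red x)} + Nat.card {x : YD p G // P (bD red x)} := by
  rw [← Nat.card_sum]
  exact Nat.card_congr Equiv.subtypeSum

theorem card_D (P : ((G → F) → F) → Prop) : Nat.card {x : YD p G // P (bD red x)} =
    Nat.card {χ : G → ℂ // IsWt p (⊥ : Subgroup G) χ ∧ P (fun f => centralValue red χ f)} :=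
  Nat.card_congr
    { toFun := fun x => ⟨x.1.1, x.1.2, x.2⟩
      invFun := fun x => ⟨⟨x.1, x.2.1⟩, x.2.2⟩
      left_inv := fun x => rfl
      right_inv := fun x => rfl }

/-- the difference of the two sides of the conjecture for the block `B` -/
def dB (p : ℕ) {G : Type} [Group G] (B : (G → F) → F) : ℤ :=
  alternatingSum p G (fun H => (numIrrInd red H B : ℤ)) - numDzBlock p red B

theorem dB_eq (B : (G → F) → F) : dB red p B =
    (Nat.card {x : XC p G True // BEq (bX red x) B} : ℤ) -
      Nat.card {y : XC p G False ⊕ YD p G // BEq (bY red y) B} := by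
  have h := alt_cnt (p := p) red (fun b => BEq b B)
  rw [card_Y red (fun b => BEq b B), card_D red (fun b => BEq b B)]
  unfold dB
  have h1 : alternatingSum p G (fun H => (numIrrInd red H B : ℤ)) =
    alternatingSum p G (fun H => (nP' red (fun b => BEq b B) H : ℤ)) := rfl
  have h2 : numDzBlock p red B = Nat.card {χ : G → ℂ // IsWt p (⊥ : Subgroup G) χ ∧
    BEq (fun f => centralValue red χ f) B} := rfl
  rw [h1, h, h2]
  push_cast
  ring

theorem dz_eq (z : G → F) (c : F) : aB red p G z c - Nw p red (⊥ : Subgroup G) z c =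
    (Nat.card {x : XC p G True // bX red x z = c} : ℤ) -
      Nat.card {y : XC p G False ⊕ YD p G // bY red y z = c} := by
  have h := alt_cnt (p := p) red (fun b => b z = c)
  rw [card_Y red (fun b => b z = c), card_D red (fun b => b z = c)]
  have h1 : aB red p G z c = alternatingSum p G (fun H => (nP' red (fun b => b z = c) H : ℤ)) := rfl
  have h2 : Nw p red (⊥ : Subgroup G) z c = Nat.card {χ : G → ℂ // IsWt p (⊥ : Subgroup G) χ ∧
    centralValue red χ z = c} := rfl
  rw [h1, h, h2]
  push_cast
  ring

variable [hp : Fact p.Prime] [IsAlgClosed F] [CharP F p]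

theorem bX_block {ε : Prop} (x : XC p G ε) : IsBlock (bX red x) :=
  kblk p F red G x.1.1.out.1 x.2.1 x.1.1.out.2 x.2.2

theorem bD_block (x : YD p G) : IsBlock (bD red x) :=
  Pool.Agent.Y930.NV.cvh F red G x.1 x.2.irr

theorem bY_block (y : XC p G False ⊕ YD p G) : IsBlock (bY red y) := by
  rcases y with x | x
  · exact bX_block red x
  · exact bD_block red x

/-- from blocks to class functions -/
theorem cnt_dvd (m : ℕ) (h : ∀ B : (G → F) → F, IsBlock B → (m : ℤ) ∣ dB red p B)
    {z : G → F} (hz : IsClassFun z) (c : F) :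
    (m : ℤ) ∣ aB red p G z c - Nw p red (⊥ : Subgroup G) z c := by
  rw [dz_eq]
  have h1 := cnt_mod (bX (p := p) (G := G) (ε := True) red) (bY (p := p) (G := G) red)
    (bX_block red) (bY_block red) m (fun B hB => by
      have h2 := h B hB
      rw [dB_eq] at h2
      exact (Nat.modEq_iff_dvd.2 h2).symm) hz c
  exact Nat.modEq_iff_dvd.1 h1.symm

/-- the idempotent of a block -/
theorem idem_dB {B : (G → F) → F} (hB : IsBlock B) : ∃ e : G → F, IsIdem e ∧
    dB red p B = aB red p G e 1 - Nw p red (⊥ : Subgroup G) e 1 ∧
    alternatingSum p G (fun H => (numIrrInd red H B : ℤ)) = aB red p G e 1 ∧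
    numDzBlock p red B = Nw p red (⊥ : Subgroup G) e 1 ∧
    ∀ B' : (G → F) → F, IsBlock B' → B' e = 1 → BEq B B' := by
  obtain ⟨e, he, h1, h2⟩ := exists_idem hB
  have key : ∀ B' : (G → F) → F, IsBlock B' → (BEq B' B ↔ B' e = 1) := by
    intro B' hB'
    constructor
    · intro h
      rw [h e he.cl, h1]
    · intro h
      exact (h2 B' hB' h).symm
  have hz : numDzBlock p red B = Nw p red (⊥ : Subgroup G) e 1 := by
    have e1 : numDzBlock p red B = Nat.card {x : YD p G // BEq (bD red x) B} :=
      (card_D red (fun b => BEq b B)).symm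
    have e2 : Nw p red (⊥ : Subgroup G) e 1 = Nat.card {x : YD p G // bD red x e = 1} :=
      (card_D red (fun b => b e = 1)).symm
    rw [e1, e2]
    exact Nat.card_congr (Equiv.subtypeEquivRight fun x => key _ (bD_block red x))
  have hd : dB red p B = aB red p G e 1 - Nw p red (⊥ : Subgroup G) e 1 := by
    rw [dB_eq, dz_eq]
    congr 2
    · exact Nat.card_congr (Equiv.subtypeEquivRight fun x => key _ (bX_block red x))
    · exact Nat.card_congr (Equiv.subtypeEquivRight fun x => key _ (bY_block red x))
  refine ⟨e, he, hd, ?_, hz, h2⟩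
  unfold dB at hd
  rw [hz] at hd
  linarith

end Pool.Agent.N20.KB
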