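import Pool.Agent.N20.KB.Pow
import Pool.Agent.Y63.NV.PeL

/-!
# From the group to the wreath product
-/

set_option autoImplicit false
set_option linter.unusedSectionVars false

open scoped Classical BigOperators

noncomputable section

namespace Pool.Agent.N20.KB

open Pool.Agent.Y63.NV
open Pool.Agent.Y63.KR
open Pool.Agent.Y63.AWC (IsIrreducibleCharacter)
open Pool.Agent.R674.Ce (Cpl toLoc toLoc_bij cpl_card)
open Pool.Agent.N85.WM (IsIdem BEq Wr Base)
open Pool.Agent.N20.KRM (Cp)
open Pool.Agent.Y286.NV (ZG exists_sep)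
open SemidirectProduct

variable {F : Type} [Field F] (red : integralClosure ℤ ℂ →+* F)

/-- `|G|` times the number of characters of defect zero with value `c` at `z` -/
def DD (p : ℕ) (G : Type) [Group G] (z : G → F) (c : F) : ℤ :=
  (Nat.card G : ℤ) * Nw p red (⊥ : Subgroup G) z c

section dz

variable {p : ℕ} [hp : Fact p.Prime] [CharP F p]

theorem inv_top {C : Type} [Group C] [Finite C] {z : C → F} (hz : IsClassFun z) (c : F) :
    numInvDzL p red (⊤ : Subgroup C) z c = Nw p red (⊥ : Subgroup C) z c := by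
  have _i : Fintype (⊤ : Subgroup C) := Fintype.ofFinite _
  have h1 := nw_iso (p := p) red (Subgroup.topEquiv (G := C)) hz c
  rw [← h1]
  unfold numInvDzL Nw
  refine Nat.card_congr (Equiv.subtypeEquivRight fun χ => ?_)
  refine and_congr ?_ Iff.rfl
  rw [Pool.Agent.N85.WM.Dzt.dz_iff]
  constructor
  · rintro ⟨h2, h3, -⟩
    exact ⟨h2, h3⟩
  · rintro ⟨h2, h3⟩
    refine ⟨h2, h3, fun y a b h => ?_⟩
    refine Pool.Agent.Y286.NV.irr_class h2 b a ?_
    refine (isConj_iff.2 ⟨⟨y, trivial⟩, ?_⟩).symm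
    exact Subtype.ext h.symm

variable {Γ : Type} [Group Γ] [Finite Γ] {N : Subgroup Γ} [hN : N.Normal]

omit [CharP F p] in
theorem card_norm (hi : N.index = p) {R : Subgroup Γ} (hR : R ∈ Cpl p N) :
    Nat.card (Subgroup.normalizer (R : Set Γ)) =
      Nat.card ↥(N ⊓ Subgroup.centralizer (R : Set Γ)) * p := by
  have e := MulEquiv.ofBijective _ (toLoc_bij hR)
  have h3 := Subgroup.card_eq_card_quotient_mul_card_subgroup
    (R.subgroupOf (Subgroup.normalizer (R : Set Γ)))
  rw [h3, ← Nat.card_congr e.toEquiv]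
  congr 1
  rw [← cpl_card hi hR]
  exact Nat.card_congr (Subgroup.subgroupOfEquivOfLe Subgroup.le_normalizer).toEquiv

/-- **characters of defect zero and a normal subgroup of index `p`** -/
theorem dd_index (hi : N.index = p) {z : Γ → F} (hz : InZ N z) (c : F) :
    DD red p Γ z c = DD red p N (fun x : N => z x) c -
      ∑ᶠ R : Subgroup Γ, if IsPGroup p R ∧ N ⊔ R = ⊤ ∧ N ⊓ R = ⊥ then
        DD red p ↥(N ⊓ Subgroup.centralizer (R : Set Γ))
          (fun x : ↥(N ⊓ Subgroup.centralizer (R : Set Γ)) => z x) c else 0 := by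
  have _i : Fintype (Subgroup Γ) := Fintype.ofFinite _
  have hq : Nat.card (Γ ⧸ N) = p := hi
  have hG : IsPGroup p (Γ ⧸ N) := IsPGroup.of_card (n := 1) (by rw [pow_one]; exact hq)
  have h1 := Pool.Agent.Y809.NV.clifL p F red Γ N z c hq hz
  have h2 := Pool.Agent.Y925.NV.dgn1L p F red Γ N z c hG hz
  have h3 := Pool.Agent.Y604.NV.dgn2L p F Γ N z c hG hz
  rw [← h2, finsum_eq_sum_of_fintype] at h3
  have h4 : ∀ R : Subgroup Γ, ((if IsPGroup p R ∧ N ⊔ R = ⊤ ∧ N ⊓ R = ⊥ then
      Nat.card (Subgroup.normalizer (R : Set Γ)) *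
        dzdL p (⊤ : Subgroup ↥(N ⊓ Subgroup.centralizer (R : Set Γ))) (fun x => z x) c
      else 0 : ℕ) : ℤ) = p * if IsPGroup p R ∧ N ⊔ R = ⊤ ∧ N ⊓ R = ⊥ then
        DD red p ↥(N ⊓ Subgroup.centralizer (R : Set Γ))
          (fun x : ↥(N ⊓ Subgroup.centralizer (R : Set Γ)) => z x) c else 0 := by
    intro R
    by_cases h : IsPGroup p R ∧ N ⊔ R = ⊤ ∧ N ⊓ R = ⊥
    · rw [if_pos h, if_pos h]
      have hcl : IsClassFun (fun x : ↥(N ⊓ Subgroup.centralizer (R : Set Γ)) => z x) :=
        fun g x => hz.conj g x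
      have h5 := Pool.Agent.Y925.NV.dgn1L p F red ↥(N ⊓ Subgroup.centralizer (R : Set Γ)) ⊤
        (fun x => z x) c (by
          intro x
          exact ⟨0, by
            obtain ⟨y, rfl⟩ := QuotientGroup.mk_surjective x
            rw [pow_zero, pow_one]
            exact (QuotientGroup.eq_one_iff y).2 trivial⟩)
        ⟨hcl, fun x hx => absurd trivial hx⟩
      rw [← h5, inv_top red hcl, card_norm hi h]
      unfold DD
      push_cast
      ring
    · rw [if_neg h, if_neg h]
      simp
  have h5 : ((Nat.card Γ * numInvDzL p red N z c : ℕ) : ℤ) = p *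
      ∑ R : Subgroup Γ, if IsPGroup p R ∧ N ⊔ R = ⊤ ∧ N ⊓ R = ⊥ then
        DD red p ↥(N ⊓ Subgroup.centralizer (R : Set Γ))
          (fun x : ↥(N ⊓ Subgroup.centralizer (R : Set Γ)) => z x) c else 0 := by
    rw [h3, Nat.cast_sum, Finset.sum_congr rfl fun R _ => h4 R, ← Finset.mul_sum]
  have h6 : Nat.card Γ = Nat.card N * p := by
    rw [← hi]
    exact N.card_mul_index.symm
  rw [finsum_eq_sum_of_fintype]
  have hp0 : (p : ℤ) ≠ 0 := by exact_mod_cast hp.out.ne_zero
  apply mul_left_cancel₀ hp0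
  rw [mul_sub, ← h5]
  unfold DD
  have h7 : (p : ℤ) * Nw p red (⊥ : Subgroup Γ) z c + numInvDzL p red N z c =
      Nw p red (⊥ : Subgroup N) (fun x => z x) c := by exact_mod_cast h1
  have h8 : (Nat.card Γ : ℤ) = Nat.card N * p := by exact_mod_cast h6
  rw [← h7]
  push_cast
  rw [h8]
  ring

end dz

/-! ### separation -/

section sep

variable {p : ℕ} [hp : Fact p.Prime] [IsAlgClosed F] [CharP F p]
  {Γ : Type} [Group Γ] [Finite Γ] {N : Subgroup Γ} [hN : N.Normal]

/-- the functional of a block of the group -/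
def blkG {N : Subgroup Γ} {B : (Γ → F) → F} (hB : IsBlock B) : ZG F N →ₗ[F] F where
  toFun z := B z.1
  map_add' a b := hB.add _ _ a.2.conj b.2.conj
  map_smul' c a := hB.smul c _ a.2.conj

/-- from the functions supported on a normal subgroup of index `p` to the blocks -/
theorem dvb_of_inz (hi : N.index = p) {m : ℤ} (h : ∀ z : Γ → F, InZ N z → ∀ c : F,
    m ∣ aB red p Γ z c - Nw p red (⊥ : Subgroup Γ) z c) : DvB red p m Γ := by
  intro B hB
  have hInf : Infinite F := inferInstance
  have hq : Nat.card (Γ ⧸ N) = p := hi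
  let I : Type := XC p Γ True ⊕ (XC p Γ False ⊕ YD p Γ)
  let β : I → ((Γ → F) → F) := fun i => Sum.elim (bX red) (bY red) i
  have hβ : ∀ i, IsBlock (β i) := by
    rintro (x | y)
    · exact bX_block red x
    · exact bY_block red y
  obtain ⟨z, hz⟩ := exists_sep (fun i : I => blkG (N := N) (hβ i)) (blkG (N := N) hB)
  have key : ∀ i : I, BEq (β i) B ↔ β i z.1 = B z.1 := by
    intro i
    constructor
    · intro h1
      exact h1 _ z.2.conj
    · intro h1 f hf
      have h2 := hz i h1
      exact Pool.Agent.Y63.NV.B286.frob p hq (hβ i) hB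
        (fun z' hz' => LinearMap.congr_fun h2 (⟨z', hz'⟩ : ZG F N)) f hf
  have h1 := h z.1 z.2 (B z.1)
  rw [dz_eq] at h1
  rw [dB_eq]
  have e1 : Nat.card {x : XC p Γ True // BEq (bX red x) B} =
      Nat.card {x : XC p Γ True // bX red x z.1 = B z.1} :=
    Nat.card_congr (Equiv.subtypeEquivRight fun x => key (Sum.inl x))
  have e2 : Nat.card {y : XC p Γ False ⊕ YD p Γ // BEq (bY red y) B} =
      Nat.card {y : XC p Γ False ⊕ YD p Γ // bY red y z.1 = B z.1} :=
    Nat.card_congr (Equiv.subtypeEquivRight fun y => key (Sum.inr y))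
  rw [e1, e2]
  exact h1

end sep

/-! ### the wreath product -/

section wr

variable {p : ℕ} [hp : Fact p.Prime] [IsAlgClosed F] [CharP F p] {G : Type} [Group G] [Finite G]

/-- the difference of the two numbers -/
def del (p : ℕ) (G : Type) [Group G] (z : G → F) (c : F) : ℤ :=
  aB red p G z c - Nw p red (⊥ : Subgroup G) z c

theorem del_iso {G H : Type} [Group G] [Group H] [Finite G] [Finite H] (φ : G ≃* H) {z : H → F}
    (hz : IsClassFun z) (c : F) : del red p G (fun x => z (φ x)) c = del red p H z c := by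
  unfold del
  rw [aB_iso red φ hz, nw_iso red φ hz]

theorem del_aa {z : G → F} (hz : IsClassFun z) (c : F) :
    AA p red G z c - DD red p G z c = (Nat.card G : ℤ) * del red p G z c := by
  rw [aa_aB red hz]
  unfold DD del
  ring

/-- the value at the centraliser of a complement -/
theorem del_cent {z : Wr p G → F} (hz : InZ (Base p G) z) (c : F) {R : Subgroup (Wr p G)}
    (hR : Cp p G R) :
    AA p red ↥(Base p G ⊓ Subgroup.centralizer (R : Set (Wr p G)))
      (fun x : ↥(Base p G ⊓ Subgroup.centralizer (R : Set (Wr p G))) => z x) c -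
    DD red p ↥(Base p G ⊓ Subgroup.centralizer (R : Set (Wr p G)))
      (fun x : ↥(Base p G ⊓ Subgroup.centralizer (R : Set (Wr p G))) => z x) c =
      (Nat.card G : ℤ) * del red p G (fun g => z (inl (fun _ => g))) c := by
  obtain ⟨u, f, hf⟩ := cent_cp' hR
  have _i : Finite (Wr p G) := Pool.Agent.N85.WM.fin_wr p G
  have hcl : IsClassFun (fun x : ↥(Base p G ⊓ Subgroup.centralizer (R : Set (Wr p G))) =>
      z x) := fun g x => hz.conj g x
  rw [del_aa red hcl, ← del_iso red f hcl, ← Nat.card_congr f.toEquiv]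
  congr 2
  funext g
  rw [hf]
  have h1 : (inl (fun i => u i * g * (u i)⁻¹) : Wr p G) =
      inl u * inl (fun _ => g) * (inl u)⁻¹ := by
    rw [← map_mul, ← map_inv, ← map_mul]
    rfl
  rw [h1, hz.conj]

/-- **the difference for the wreath product** -/
theorem del_wr {z : Wr p G → F} (hz : InZ (Base p G) z) (c : F) :
    (p : ℤ) * del red p (Wr p G) z c = del red p ↥(Base p G) (fun x : ↥(Base p G) => z x) c -
      del red p G (fun g => z (inl (fun _ => g))) c := by
  have _i : Finite (Wr p G) := Pool.Agent.N85.WM.fin_wr p G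
  have _i2 : Fintype (Subgroup (Wr p G)) := Fintype.ofFinite _
  have hzc : IsClassFun z := hz.conj
  have hcl : IsClassFun (fun x : Base p G => z x) := fun g x => hz.conj g x
  have h := aa_index red (N := Base p G) Pool.Agent.N20.KRM.base_index hz c
  have h' := dd_index red (N := Base p G) Pool.Agent.N20.KRM.base_index hz c
  rw [finsum_eq_sum_of_fintype] at h h'
  have h1 : ∀ R : Subgroup (Wr p G), ((if IsPGroup p R ∧ Base p G ⊔ R = ⊤ ∧ Base p G ⊓ R = ⊥ then
      AA p red ↥(Base p G ⊓ Subgroup.centralizer (R : Set (Wr p G)))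
      (fun x : ↥(Base p G ⊓ Subgroup.centralizer (R : Set (Wr p G))) => z x) c else 0) -
      (if IsPGroup p R ∧ Base p G ⊔ R = ⊤ ∧ Base p G ⊓ R = ⊥ then
      DD red p ↥(Base p G ⊓ Subgroup.centralizer (R : Set (Wr p G)))
      (fun x : ↥(Base p G ⊓ Subgroup.centralizer (R : Set (Wr p G))) => z x) c else 0)) =
      if Cp p G R then (Nat.card G : ℤ) * del red p G (fun g => z (inl (fun _ => g))) c else 0 := by
    intro R
    by_cases h : Cp p G R
    · have h' : IsPGroup p R ∧ Base p G ⊔ R = ⊤ ∧ Base p G ⊓ R = ⊥ := h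
      rw [if_pos h, if_pos h', if_pos h', del_cent red hz c h]
    · have h' : ¬ (IsPGroup p R ∧ Base p G ⊔ R = ⊤ ∧ Base p G ⊓ R = ⊥) := h
      rw [if_neg h, if_neg h', if_neg h', sub_zero]
  have h0 : AA p red (Wr p G) z c - DD red p (Wr p G) z c =
      (AA p red ↥(Base p G) (fun x : ↥(Base p G) => z x) c -
        DD red p ↥(Base p G) (fun x : ↥(Base p G) => z x) c) -
      ∑ R : Subgroup (Wr p G), if Cp p G R then
        (Nat.card G : ℤ) * del red p G (fun g => z (inl (fun _ => g))) c else 0 := by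
    rw [h, h', ← Finset.sum_congr rfl fun R _ => h1 R, Finset.sum_sub_distrib]
    ring
  rw [← Finset.sum_filter, Finset.sum_const, nsmul_eq_mul, del_aa red hzc, del_aa red hcl] at h0
  have h2 : ((Finset.univ.filter (fun R : Subgroup (Wr p G) => Cp p G R)).card : ℤ) =
      (Nat.card {R : Subgroup (Wr p G) // Cp p G R} : ℤ) := by
    rw [Nat.card_eq_fintype_card, Fintype.card_subtype]
  have h3 : (Nat.card {R : Subgroup (Wr p G) // Cp p G R} : ℤ) * (Nat.card G : ℤ) =
      (Nat.card (ZMod p → G) : ℤ) := by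
    exact_mod_cast Pool.Agent.N20.KRM.card_cp (p := p) (G := G)
  have h4 : (Nat.card (Wr p G) : ℤ) = (Nat.card (ZMod p → G) : ℤ) * p := by
    have h5 := Pool.Agent.N85.WM.card_wr p G
    rw [h5, Nat.card_fun, Nat.card_zmod]
    push_cast
    rfl
  have h5 : (Nat.card (Base p G) : ℤ) = (Nat.card (ZMod p → G) : ℤ) := by
    rw [Nat.card_congr (Pool.Agent.N20.KRM.baseEquiv p G).toEquiv]
  rw [h2, ← mul_assoc, h3, h4, h5] at h0
  have h6 : (Nat.card (ZMod p → G) : ℤ) ≠ 0 := by
    exact_mod_cast (Nat.card_pos (α := ZMod p → G)).ne'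
  apply mul_left_cancel₀ h6
  linear_combination h0

/-- **from the group to the wreath product** -/
theorem dvb_wr {m : ℤ} (h : DvB red p (p * m) G) : DvB red p m (Wr p G) := by
  have _i : Finite (Wr p G) := Pool.Agent.N85.WM.fin_wr p G
  refine dvb_of_inz red (N := Base p G) Pool.Agent.N20.KRM.base_index fun z hz c => ?_
  have h1 := del_wr red hz c
  have hb : DvB red p (p * m) (Base p G) :=
    dvb_iso red (Pool.Agent.N20.KRM.baseEquiv p G) (dvb_zmod red h)
  have h2 := cnt_dvd' red hb (z := fun x : Base p G => z x) (fun g x => hz.conj g x) c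
  have h3 := cnt_dvd' red h (z := fun g : G => z (inl (fun _ => g))) (fun g x => by
    have h4 : (inl (fun _ : ZMod p => g * x * g⁻¹) : Wr p G) =
        inl (fun _ => g) * inl (fun _ => x) * (inl (fun _ => g))⁻¹ := by
      rw [← map_mul, ← map_inv, ← map_mul]
      rfl
    change z (inl (fun _ => g * x * g⁻¹)) = z (inl (fun _ => x))
    rw [h4, hz.conj]) c
  have h5 : (p : ℤ) * m ∣ p * del red p (Wr p G) z c := by
    rw [h1]
    exact dvd_sub h2 h3
  exact (mul_dvd_mul_iff_left (by exact_mod_cast hp.out.ne_zero)).1 h5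

end wr

end Pool.Agent.N20.KB
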