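import Pool.Agent.N20.KB.Cnt
import Pool.Agent.Y809.NV.ClifL

/-!
# Characters of defect zero of the wreath product
-/

set_option autoImplicit false
set_option linter.unusedSectionVars false

open scoped Classical BigOperators

noncomputable section

namespace Pool.Agent.N20.KB

open Pool.Agent.Y63.NV
open Pool.Agent.Y63.AWC (IsIrreducibleCharacter)
open Pool.Agent.N85.WM (IsIdem Wr Base wrF)
open Pool.Agent.N85.WM.Wpi (toIrr ofIrr isWt_tens cv_tens)
open Pool.Agent.N19.RB (tens exists_tens piS mem_piS)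

variable {F : Type} [Field F] [IsAlgClosed F] (red : integralClosure ℤ ℂ →+* F)
  {p : ℕ} [hp : Fact p.Prime] [CharP F p] {G : Type} [Group G] [Finite G]

/-- the factors of a character of defect zero of the base group -/
theorem base_dz {e : G → F} (he : IsIdem e) {χ : Base p G → ℂ}
    (hχ : IsWt p (⊥ : Subgroup (Base p G)) χ)
    (hv : centralValue red χ (fun x : Base p G => wrF p e x) = 1) :
    ∃ θ : ZMod p → G → ℂ, (∀ i, IsWt p (⊥ : Subgroup G) (θ i) ∧ centralValue red (θ i) e = 1) ∧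
      (fun x : ZMod p → G => χ (Pool.Agent.N20.KRM.baseEquiv p G x)) = tens θ := by
  have _i : Fintype G := Fintype.ofFinite G
  have _i2 : Finite (Wr p G) := Pool.Agent.N85.WM.fin_wr p G
  set φ := Pool.Agent.N20.KRM.baseEquiv p G with hφ
  have h1 : IsIrreducibleCharacter (fun x : ZMod p → G => χ (φ x)) := irr_comp' φ hχ.irr
  obtain ⟨θ, hθ, hχθ⟩ := exists_tens (toIrr h1)
  have hz := Pool.Agent.N85.WM.wrF_inZ p G he.cl
  have hcl : IsClassFun (fun x : Base p G => wrF p e x) := fun g x => hz.conj g x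
  have h2 : IsWt p (piS (fun _ : ZMod p => (⊥ : Subgroup G))) (tens θ) := by
    have hbot : piS (fun _ : ZMod p => (⊥ : Subgroup G)) = ⊥ := by
      rw [eq_bot_iff]
      intro x hx
      rw [Subgroup.mem_bot]
      funext i
      exact Subgroup.mem_bot.1 (mem_piS.1 hx i)
    rw [hbot, ← hχθ]
    refine ⟨h1, ?_, ?_⟩
    · intro q hq x
      rw [Subgroup.mem_bot.1 hq, one_mul]
    · obtain ⟨n, hn, h3⟩ := hχ.defectZero
      refine ⟨n, ?_, ?_⟩
      · show χ (φ 1) = n
        rw [map_one]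
        exact hn
      · rw [Subgroup.card_bot] at h3 ⊢
        rw [Nat.card_congr φ.toEquiv]
        exact h3
  have h3 := (isWt_tens (p := p) (fun i => ofIrr (hθ i)) (fun _ => (⊥ : Subgroup G))
    (fun _ => inferInstance)).1 h2
  have h4 : centralValue red (tens θ) (fun x : ZMod p → G => ∏ i, e (x i)) = 1 := by
    rw [← hχθ, ← hv, ← Pool.Agent.Y286.NV.centralValue_comp red φ χ
      (Pool.Agent.Y286.NV.irr_class hχ.irr) _ hcl]
    congr 1
    funext x
    unfold wrF
    exact (if_pos rfl).symm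
  rw [cv_tens red (fun i => ofIrr (hθ i)) (fun _ => e) (fun _ => he.cl)] at h4
  refine ⟨θ, fun i => ⟨h3 i, ?_⟩, hχθ⟩
  rcases he.val _ (Pool.Agent.Y930.NV.cvh F red G (θ i) (ofIrr (hθ i))) with h5 | h5
  · exfalso
    rw [Finset.prod_eq_zero (Finset.mem_univ i) h5] at h4
    exact zero_ne_one h4
  · exact h5

theorem nw_base {e : G → F} (he : IsIdem e) (h : Nw p red (⊥ : Subgroup G) e 1 ≤ 1) :
    Nw p red (⊥ : Subgroup (Base p G)) (fun x : Base p G => wrF p e x) 1 ≤ 1 := by
  have _i2 : Finite (Wr p G) := Pool.Agent.N85.WM.fin_wr p G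
  have hf : Finite {χ : G → ℂ // IsWt p (⊥ : Subgroup G) χ ∧ centralValue red χ e = 1} :=
    ((Pool.Agent.Y914.NV.irr ℂ G).1.subset fun _ h => h.1.irr).to_subtype
  have hf2 : Finite {χ : Base p G → ℂ // IsWt p (⊥ : Subgroup (Base p G)) χ ∧
      centralValue red χ (fun x : Base p G => wrF p e x) = 1} :=
    ((Pool.Agent.Y914.NV.irr ℂ (Base p G)).1.subset fun _ h => h.1.irr).to_subtype
  unfold Nw at h ⊢
  rw [Finite.card_le_one_iff_subsingleton] at h ⊢
  refine ⟨fun χ χ' => ?_⟩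
  obtain ⟨θ, h1, h2⟩ := base_dz red he χ.2.1 χ.2.2
  obtain ⟨θ', h1', h2'⟩ := base_dz red he χ'.2.1 χ'.2.2
  have h3 : θ = θ' := by
    funext i
    exact congrArg Subtype.val (h.elim ⟨θ i, h1 i⟩ ⟨θ' i, h1' i⟩)
  apply Subtype.ext
  funext x
  have h4 := congrFun (h2.trans (h3 ▸ h2'.symm)) ((Pool.Agent.N20.KRM.baseEquiv p G).symm x)
  simpa using h4

/-- **characters of defect zero of the wreath product** -/
theorem nw_wr {e : G → F} (he : IsIdem e) (h : Nw p red (⊥ : Subgroup G) e 1 ≤ 1) :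
    Nw p red (⊥ : Subgroup (Wr p G)) (wrF p e) 1 = 0 := by
  have _i2 : Finite (Wr p G) := Pool.Agent.N85.WM.fin_wr p G
  have h1 := Pool.Agent.Y809.NV.clifL p F red (Wr p G) (Base p G) (wrF p e) 1
    (Pool.Agent.N85.WM.card_quot p G) (Pool.Agent.N85.WM.wrF_inZ p G he.cl)
  have h2 := nw_base red he h
  by_contra hne
  have h3 : p ≤ p * Nw p red (⊥ : Subgroup (Wr p G)) (wrF p e) 1 :=
    Nat.le_mul_of_pos_right _ (Nat.pos_of_ne_zero hne)
  have h4 := hp.out.two_le
  omega

/-- a block contains at most one character of defect zero -/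
theorem nw_le_one {B : (G → F) → F} : numDzBlock p red B ≤ 1 := by
  have _i : Fintype G := Fintype.ofFinite G
  have hf : Finite {χ : G → ℂ // IsWt p (⊥ : Subgroup G) χ ∧
      ∀ f : G → F, IsClassFun f → centralValue red χ f = B f} :=
    ((Pool.Agent.Y914.NV.irr ℂ G).1.subset fun _ h => h.1.irr).to_subtype
  unfold numDzBlock
  rw [Finite.card_le_one_iff_subsingleton]
  refine ⟨fun χ χ' => Subtype.ext ?_⟩
  exact Pool.Agent.R674.KB.dz_unique (F := F) red χ'.2.1 χ.2.1.irr fun f hf => by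
    rw [χ.2.2 f hf, χ'.2.2 f hf]

end Pool.Agent.N20.KB
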