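import Pool.Agent.N20.KB.Step
import Pool.Agent.N85.WM.Com

/-!
# The conjecture modulo `p` and commutators
-/

set_option autoImplicit false
set_option linter.unusedSectionVars false

open scoped Classical BigOperators

noncomputable section

namespace Pool.Agent.N20.KB

open Pool.Agent.Y63.NV
open Pool.Agent.Y63.KR
open Pool.Agent.Y63.AWC (IsIrreducibleCharacter)
open Pool.Agent.Helper884.IC (Irr mem_Irr)
open Pool.Agent.N85.WM (BEq ind_iff cls_iff fs_if card_prod cc_count PEl card_sig)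

variable {F : Type} [Field F] (red : integralClosure ℤ ℂ →+* F)
  {p : ℕ} {G : Type} [Group G] [Finite G]

/-- the number of the pairs `(x, y)` of elements of `H` with `[x, y]` conjugate to `g` in `G` -/
def comNum {G : Type} [Group G] (H : Subgroup G) (g : G) : ℕ :=
  Nat.card {t : G × G // t.1 ∈ H ∧ t.2 ∈ H ∧ IsConj g (t.1 * t.2 * t.1⁻¹ * t.2⁻¹)}

/-- the number of triples `(x, y, k)` with `k` conjugate to `g` and `k[x, y]` a `p`-element -/
def trip (p : ℕ) {G : Type} [Group G] (g : G) : ℕ :=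
  Nat.card {t : G × G × G // IsConj g t.2.2 ∧ PEl p (t.2.2 * (t.1 * t.2.1 * t.1⁻¹ * t.2.1⁻¹))}

/-- pairs of a class and an element -/
def nCC {G : Type} [Group G] (H : Subgroup G) (g : G) : ℕ :=
  Nat.card {s : ConjClasses H × H // IsConj (s.2 * s.1.out) s.1.out ∧ IsConj g (s.2 : G)}

theorem cc_com (H : Subgroup G) (g : G) : Nat.card H * nCC H g = comNum H g := by
  have h1 := cc_count (H := H) (R := H) (fun y r => r * y) (fun _ r => IsConj g (r : G)) (by
    intro a
    refine ⟨(MulAut.conj a).toEquiv, fun y r => ⟨?_, ?_⟩⟩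
    · have e2 : IsConj (r : G) ((a * r * a⁻¹ : H) : G) := isConj_iff.mpr ⟨a, by simp⟩
      change IsConj g ((a * r * a⁻¹ : H) : G) ↔ IsConj g (r : G)
      exact ⟨fun h2 => h2.trans e2.symm, fun h2 => h2.trans e2⟩
    · change a * r * a⁻¹ * (a * y * a⁻¹) = a * (r * y) * a⁻¹
      group)
  have e1 : nCC H g = Nat.card {s : ConjClasses H × H // IsConj g (s.2 : G) ∧
      IsConj (s.2 * s.1.out) s.1.out} := by
    unfold nCC
    exact Nat.card_congr (Equiv.subtypeEquivRight fun s => and_comm)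
  rw [e1, h1]
  unfold comNum
  refine Nat.card_congr
    { toFun := fun t => ⟨((t.1.2.1 : G), (t.1.1 : G)), t.1.2.1.2, t.1.1.2, ?_⟩
      invFun := fun t => ⟨(⟨t.1.2, t.2.2.1⟩, ⟨t.1.1, t.2.1⟩,
        ⟨t.1.1 * t.1.2 * t.1.1⁻¹ * t.1.2⁻¹, H.mul_mem (H.mul_mem (H.mul_mem t.2.1 t.2.2.1)
          (H.inv_mem t.2.1)) (H.inv_mem t.2.2.1)⟩), t.2.2.2, ?_⟩
      left_inv := fun t => ?_
      right_inv := fun t => rfl }
  · have h2 : t.1.2.1 * t.1.1 * t.1.2.1⁻¹ * t.1.1⁻¹ = t.1.2.2 := by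
      rw [t.2.2]
      group
    have h3 := congrArg (fun x : H => (x : G)) h2
    have h4 : (t.1.2.1 : G) * t.1.1 * (t.1.2.1 : G)⁻¹ * (t.1.1 : G)⁻¹ = t.1.2.2 := h3
    change IsConj g ((t.1.2.1 : G) * t.1.1 * (t.1.2.1 : G)⁻¹ * (t.1.1 : G)⁻¹)
    rw [h4]
    exact t.2.1
  · apply Subtype.ext
    change t.1.1 * t.1.2 * t.1.1⁻¹ = t.1.1 * t.1.2 * t.1.1⁻¹ * t.1.2⁻¹ * t.1.2
    group
  · apply Subtype.ext
    refine Prod.ext rfl (Prod.ext rfl (Subtype.ext ?_))
    change (t.1.2.1 : G) * t.1.1 * (t.1.2.1 : G)⁻¹ * (t.1.1 : G)⁻¹ = t.1.2.2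
    have h2 : t.1.2.1 * t.1.1 * t.1.2.1⁻¹ * t.1.1⁻¹ = t.1.2.2 := by
      rw [t.2.2]
      group
    exact congrArg (fun x : H => (x : G)) h2

theorem comNum_conj (a : G) (H : Subgroup G) (g : G) : comNum (conjSub a H) g = comNum H g := by
  have hmem : ∀ x : G, a * x * a⁻¹ ∈ conjSub a H ↔ x ∈ H := by
    intro x
    constructor
    · rintro ⟨y, hy, h⟩
      have h1 : a * y * a⁻¹ = a * x * a⁻¹ := h
      have h2 : y = x := by
        have h3 := congrArg (fun w => a⁻¹ * w * a) h1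
        simpa [mul_assoc] using h3
      rw [← h2]
      exact hy
    · intro hx
      exact ⟨x, hx, rfl⟩
  unfold comNum
  refine (Nat.card_congr (Equiv.subtypeEquiv (Equiv.prodCongr (MulAut.conj a).toEquiv
    (MulAut.conj a).toEquiv) fun t => ?_)).symm
  have e1 : a * t.1 * a⁻¹ * (a * t.2 * a⁻¹) * (a * t.1 * a⁻¹)⁻¹ * (a * t.2 * a⁻¹)⁻¹ =
      a * (t.1 * t.2 * t.1⁻¹ * t.2⁻¹) * a⁻¹ := by group
  have e2 : IsConj (t.1 * t.2 * t.1⁻¹ * t.2⁻¹) (a * (t.1 * t.2 * t.1⁻¹ * t.2⁻¹) * a⁻¹) :=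
    isConj_iff.mpr ⟨a, rfl⟩
  change t.1 ∈ H ∧ t.2 ∈ H ∧ IsConj g (t.1 * t.2 * t.1⁻¹ * t.2⁻¹) ↔
    a * t.1 * a⁻¹ ∈ conjSub a H ∧ a * t.2 * a⁻¹ ∈ conjSub a H ∧
      IsConj g (a * t.1 * a⁻¹ * (a * t.2 * a⁻¹) * (a * t.1 * a⁻¹)⁻¹ * (a * t.2 * a⁻¹)⁻¹)
  rw [hmem, hmem, e1]
  exact and_congr_right fun _ => and_congr_right fun _ =>
    ⟨fun h => h.trans e2, fun h => h.trans e2.symm⟩

theorem nCC_conj (a : G) (H : Subgroup G) (g : G) : nCC (conjSub a H) g = nCC H g := by
  have h1 := cc_com (conjSub a H) g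
  have h2 := cc_com H g
  have h3 : Nat.card (conjSub a H) = Nat.card H :=
    (Nat.card_congr (H.equivMapOfInjective _ (MulAut.conj a).injective).toEquiv).symm
  rw [h3, comNum_conj, ← h2] at h1
  exact Nat.eq_of_mul_eq_mul_left Nat.card_pos h1

/-- the number of triples for the characters of defect zero -/
def nD (p : ℕ) {G : Type} [Group G] (g : G) : ℕ :=
  Nat.card {s : {s : ConjClasses G × (G × G) // (∃ k : ℕ, orderOf s.2.1 = p ^ k) ∧
    IsConj (s.2.1 * s.2.2 * s.1.out) s.1.out} // IsConj g s.1.2.2}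

theorem cc_trip [Fact p.Prime] (g : G) : Nat.card G * nD p g = trip p g := by
  have h1 := cc_count (H := G) (R := G × G) (fun y s => s.1 * s.2 * y)
    (fun _ s => PEl p s.1 ∧ IsConj g s.2) (by
      intro a
      refine ⟨Equiv.prodCongr (MulAut.conj a).toEquiv (MulAut.conj a).toEquiv,
        fun y s => ⟨?_, ?_⟩⟩
      · have e2 : IsConj s.2 (a * s.2 * a⁻¹) := isConj_iff.mpr ⟨a, rfl⟩
        change (PEl p (a * s.1 * a⁻¹) ∧ IsConj g (a * s.2 * a⁻¹)) ↔ _
        rw [Pool.Agent.N85.WM.PEl.conj]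
        exact and_congr_right fun _ => ⟨fun h2 => h2.trans e2.symm, fun h2 => h2.trans e2⟩
      · change a * s.1 * a⁻¹ * (a * s.2 * a⁻¹) * (a * y * a⁻¹) = a * (s.1 * s.2 * y) * a⁻¹
        group)
  have e1 : nD p g = Nat.card {s : ConjClasses G × (G × G) // (PEl p s.2.1 ∧ IsConj g s.2.2) ∧
      IsConj (s.2.1 * s.2.2 * s.1.out) s.1.out} := by
    unfold nD
    exact Nat.card_congr
      { toFun := fun s => ⟨s.1.1, ⟨s.1.2.1, s.2⟩, s.1.2.2⟩
        invFun := fun s => ⟨⟨s.1, s.2.1.1, s.2.2⟩, s.2.1.2⟩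
        left_inv := fun s => rfl
        right_inv := fun s => rfl }
  have hinv : ∀ (x y k : G), (y * x * y⁻¹ * x⁻¹ * k⁻¹)⁻¹ = k * (x * y * x⁻¹ * y⁻¹) := by
    intro x y k
    group
  have hP : ∀ x : G, PEl p x⁻¹ ↔ PEl p x := by
    intro x
    unfold PEl
    rw [orderOf_inv]
  rw [e1, h1]
  unfold trip
  refine Nat.card_congr
    { toFun := fun t => ⟨(t.1.1, t.1.2.1, t.1.2.2.2), t.2.1.2, ?_⟩
      invFun := fun t => ⟨(t.1.1, t.1.2.1, (t.1.2.1 * t.1.1 * t.1.2.1⁻¹ * t.1.1⁻¹ *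
        t.1.2.2⁻¹, t.1.2.2)), ⟨?_, t.2.1⟩, ?_⟩
      left_inv := fun t => ?_
      right_inv := fun t => rfl }
  · have h3 : t.1.2.2.1 = t.1.2.1 * t.1.1 * t.1.2.1⁻¹ * t.1.1⁻¹ * t.1.2.2.2⁻¹ := by
      rw [t.2.2]
      group
    have h4 := t.2.1.1
    rw [h3, ← hP, hinv] at h4
    exact h4
  · change PEl p (t.1.2.1 * t.1.1 * t.1.2.1⁻¹ * t.1.1⁻¹ * t.1.2.2⁻¹)
    rw [← hP, hinv]
    exact t.2.2
  · change t.1.2.1 * t.1.1 * t.1.2.1⁻¹ = t.1.2.1 * t.1.1 * t.1.2.1⁻¹ * t.1.1⁻¹ *
        t.1.2.2⁻¹ * t.1.2.2 * t.1.1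
    group
  · apply Subtype.ext
    refine Prod.ext rfl (Prod.ext rfl (Prod.ext ?_ rfl))
    change t.1.2.1 * t.1.1 * t.1.2.1⁻¹ * t.1.1⁻¹ * t.1.2.2.2⁻¹ = t.1.2.2.1
    rw [t.2.2]
    group

/-! ### sums of central characters -/

/-- the sum of the central characters of a subgroup -/
theorem irr_sum (H : Subgroup G) {z : G → F} (hz : IsClassFun z) :
    ∑ᶠ χ : {χ : H → ℂ // IsIrreducibleCharacter χ}, centralValue red χ.1 (fun x => z x) =
      ∑ᶠ s : {s : ConjClasses H × H // IsConj (s.2 * s.1.out) s.1.out}, z s.1.2 := by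
  have _i : Fintype H := Fintype.ofFinite H
  have h1 := Pool.Agent.N85.WM.Dzt.sum_cv' red (K := H) (w := fun x : H => z x)
    (fun g x => hz g x)
  have h2 := fs_if (F := F) (fun (C : ConjClasses H) (x : H) => IsConj (x * C.out) C.out)
    (fun x => z x)
  rw [← h2]
  have h3 : ∑ᶠ χ : {χ : H → ℂ // IsIrreducibleCharacter χ}, centralValue red χ.1
      (fun x => z x) = ∑ χ : {χ : H → ℂ // χ ∈ Irr H}, centralValue red χ.1 (fun x => z x) := by
    rw [← finsum_eq_sum_of_fintype]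
    refine finsum_eq_of_bijective (fun χ => ⟨χ.1, mem_Irr.mpr χ.2⟩) ⟨?_, ?_⟩ fun χ => rfl
    · intro χ χ' h
      exact Subtype.ext (congrArg (fun x => x.1) h)
    · rintro ⟨χ, hχ⟩
      exact ⟨⟨χ, mem_Irr.mp hχ⟩, rfl⟩
  rw [h3, h1]
  refine finsum_congr fun C => ?_
  rw [finsum_eq_sum_of_fintype]
  refine Finset.sum_congr rfl fun x _ => ?_
  have h4 : ConjClasses.mk (x * C.out) = C ↔ IsConj (x * C.out) C.out := by
    conv_lhs => rhs; rw [← Pool.Agent.Y930.NV.mk_out C]
    exact ConjClasses.mk_eq_mk_iff_isConj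
  have h5 : Pool.Agent.Y930.NV.ind F C (x * C.out) =
      if IsConj (x * C.out) C.out then 1 else 0 := by
    by_cases h6 : IsConj (x * C.out) C.out
    · rw [if_pos h6]
      exact if_pos (h4.2 h6)
    · rw [if_neg h6]
      exact if_neg (fun h => h6 (h4.1 h))
  rw [h5]
  split_ifs <;> simp

/-- the pairs of a class of chains of given parity and a pair -/
def SX (p : ℕ) (G : Type) [Group G] (ε : Prop) : Type :=
  Σ q : {q : Quotient (chainSetoid p G) // Even q.out.1.ncard ↔ ε},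
    {s : ConjClasses (chainStabilizer q.1.out.1) × chainStabilizer q.1.out.1 //
      IsConj (s.2 * s.1.out) s.1.out}

/-- the element of a pair -/
def kX {p : ℕ} {G : Type} [Group G] {ε : Prop} (s : SX p G ε) : G := s.2.1.2

instance fin_SX (ε : Prop) : Finite (SX p G ε) := by
  unfold SX
  infer_instance

theorem sum_sig {A : Type} [Finite A] (T : A → Type) [∀ a, Finite (T a)]
    (v : (Σ a, T a) → F) : ∑ᶠ s, v s = ∑ᶠ a, ∑ᶠ t : T a, v ⟨a, t⟩ := by
  have : Fintype A := Fintype.ofFinite A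
  have : ∀ a, Fintype (T a) := fun a => Fintype.ofFinite (T a)
  rw [finsum_eq_sum_of_fintype, Fintype.sum_sigma, finsum_eq_sum_of_fintype]
  exact Finset.sum_congr rfl fun a _ => (finsum_eq_sum_of_fintype _).symm

theorem sum_bX (ε : Prop) {z : G → F} (hz : IsClassFun z) :
    ∑ᶠ x : XC p G ε, bX red x z = ∑ᶠ s : SX p G ε, z (kX s) := by
  have h1 := sum_sig (F := F) (fun q : {q : Quotient (chainSetoid p G) // Even q.out.1.ncard ↔ ε} =>
    {χ : chainStabilizer q.1.out.1 → ℂ // IsIrreducibleCharacter χ}) (fun x => bX red x z)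
  have h2 := sum_sig (F := F) (fun q : {q : Quotient (chainSetoid p G) // Even q.out.1.ncard ↔ ε} =>
    {s : ConjClasses (chainStabilizer q.1.out.1) × chainStabilizer q.1.out.1 //
      IsConj (s.2 * s.1.out) s.1.out}) (fun s => z (kX s))
  refine h1.trans (Eq.trans ?_ h2.symm)
  exact finsum_congr fun q => irr_sum red _ hz

/-- the triples of the characters of defect zero -/
def SD (p : ℕ) (G : Type) [Group G] : Type :=
  {s : ConjClasses G × (G × G) // (∃ k : ℕ, orderOf s.2.1 = p ^ k) ∧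
    IsConj (s.2.1 * s.2.2 * s.1.out) s.1.out}

instance fin_SD : Finite (SD p G) := by
  unfold SD
  infer_instance

theorem sum_bD [Fact p.Prime] [CharP F p] {z : G → F} (hz : IsClassFun z) :
    ∑ᶠ x : YD p G, bD red x z = ∑ᶠ s : SD p G, z s.1.2.2 := by
  have _i : Fintype G := Fintype.ofFinite G
  have h := Pool.Agent.N85.WM.Dzt.main Pool.Agent.N85.WM.Van.main p F red G z hz
  have h2 := fs_if (F := F) (fun (C : ConjClasses G) (s : G × G) =>
    (∃ k : ℕ, orderOf s.1 = p ^ k) ∧ IsConj (s.1 * s.2 * C.out) C.out) (fun s => z s.2)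
  refine h.trans (Eq.trans ?_ h2)
  refine finsum_congr fun C => ?_
  rw [finsum_eq_sum_of_fintype, finsum_eq_sum_of_fintype, Fintype.sum_prod_type]
  refine Finset.sum_congr rfl fun u _ => ?_
  rw [finsum_eq_sum_of_fintype]
  refine Finset.sum_congr rfl fun g _ => ?_
  by_cases h : (∃ k : ℕ, orderOf u = p ^ k) ∧ IsConj (u * g * C.out) C.out
  · exact (if_pos h).trans (if_pos h).symm
  · exact (if_neg h).trans (if_neg h).symm

theorem sum_two {A B : Type} [Finite A] [Finite B] (v : A ⊕ B → F) :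
    ∑ᶠ s, v s = ∑ᶠ a, v (Sum.inl a) + ∑ᶠ b, v (Sum.inr b) := by
  have : Fintype A := Fintype.ofFinite A
  have : Fintype B := Fintype.ofFinite B
  rw [finsum_eq_sum_of_fintype, Fintype.sum_sum_type, finsum_eq_sum_of_fintype,
    finsum_eq_sum_of_fintype]

/-- the element of a member of the sum type -/
def kY {p : ℕ} {G : Type} [Group G] (s : SX p G False ⊕ SD p G) : G :=
  Sum.elim kX (fun s => s.1.2.2) s

theorem card_SX (ε : Prop) (g : G) [Fintype (Quotient (chainSetoid p G))] :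
    Nat.card {s : SX p G ε // IsConj g (kX s)} = ∑ q : Quotient (chainSetoid p G),
      if (Even q.out.1.ncard ↔ ε) then nCC (chainStabilizer q.out.1) g else 0 := by
  have h := card_sig (fun q : {q : Quotient (chainSetoid p G) // Even q.out.1.ncard ↔ ε} =>
    {s : ConjClasses (chainStabilizer q.1.out.1) × chainStabilizer q.1.out.1 //
      IsConj (s.2 * s.1.out) s.1.out})
    (fun s => IsConj g (kX s))
  have _i : Fintype {q : Quotient (chainSetoid p G) // Even q.out.1.ncard ↔ ε} :=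
    Fintype.ofFinite _
  refine Eq.trans h ?_
  rw [finsum_eq_sum_of_fintype, ← Finset.sum_filter]
  have h2 := Finset.sum_subtype (F := _i) (p := fun q : Quotient (chainSetoid p G) =>
    (Even q.out.1.ncard ↔ ε)) (Finset.univ.filter (fun q : Quotient (chainSetoid p G) =>
      (Even q.out.1.ncard ↔ ε))) (by simp)
    (fun q => nCC (chainStabilizer q.out.1) g)
  rw [h2]
  refine Finset.sum_congr rfl fun q _ => ?_
  unfold nCC
  exact Nat.card_congr
    { toFun := fun t => ⟨t.1.1, t.1.2, t.2⟩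
      invFun := fun t => ⟨⟨t.1, t.2.1⟩, t.2.2⟩
      left_inv := fun t => rfl
      right_inv := fun t => rfl }

theorem alt_nCC (g : G) : alternatingSum p G (fun H => (nCC H g : ℤ)) =
    (Nat.card {s : SX p G True // IsConj g (kX s)} : ℤ) -
      Nat.card {s : SX p G False // IsConj g (kX s)} := by
  have _i : Fintype (Quotient (chainSetoid p G)) := Fintype.ofFinite _
  rw [card_SX, card_SX]
  unfold alternatingSum
  rw [finsum_eq_sum_of_fintype]
  push_cast
  rw [← Finset.sum_sub_distrib]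
  refine Finset.sum_congr rfl fun q _ => ?_
  by_cases h : Even q.out.1.ncard
  · rw [h.neg_one_pow, if_pos (iff_of_true h trivial), if_neg (fun h2 => h2.1 h)]
    ring
  · rw [(Nat.not_even_iff_odd.1 h).neg_one_pow, if_neg (fun h2 => h (h2.2 trivial)),
      if_pos (iff_of_false h id)]
    ring

theorem card_kY (g : G) : Nat.card {s : SX p G False ⊕ SD p G // IsConj g (kY s)} =
    Nat.card {s : SX p G False // IsConj g (kX s)} + nD p g := by
  unfold nD
  rw [← Nat.card_sum]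
  exact Nat.card_congr Equiv.subtypeSum

/-- the alternating sum of the numbers of pairs with given commutator class -/
def altCom (p : ℕ) {G : Type} [Group G] (g : G) : ℤ :=
  ∑ᶠ σ : {σ : Set (Subgroup G) // IsPChain p σ},
    (-1) ^ σ.1.ncard * (comNum (chainStabilizer σ.1) g : ℤ)

theorem altCom_eq (g : G) :
    (Nat.card G : ℤ) * alternatingSum p G (fun H => (nCC H g : ℤ)) = altCom p g := by
  have h := Pool.Agent.Q90.WR.card_mul_alternatingSum' (p := p) (G := G)
    (fun H => (nCC H g : ℤ)) (fun a H => by rw [nCC_conj])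
  rw [h]
  unfold altCom
  rw [finsum_eq_sum_of_fintype]
  refine Finset.sum_congr rfl fun σ _ => ?_
  rw [← cc_com]
  push_cast
  rfl

variable [hp : Fact p.Prime] [IsAlgClosed F] [CharP F p]

/-- **the conjecture modulo `p` without characters** -/
theorem mod_iff : DvB red p p G ↔ ∀ g : G,
    (p : ℤ) ∣ alternatingSum p G (fun H => (nCC H g : ℤ)) - nD p g := by
  have h1 := ind_iff (bX (p := p) (G := G) (ε := True) red) (bY (p := p) (G := G) red)
    (bX_block red) (bY_block red)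
  have e1 : DvB red p p G ↔ ∀ B : (G → F) → F, IsBlock B →
      (Nat.card {x : XC p G True // BEq (bX red x) B} : F) =
        (Nat.card {y : XC p G False ⊕ YD p G // BEq (bY red y) B} : F) := by
    refine forall_congr' fun B => imp_congr_right fun _ => ?_
    rw [dB_eq, ← CharP.intCast_eq_zero_iff F p]
    push_cast
    exact sub_eq_zero
  have e2 : ∀ z : G → F, IsClassFun z → ((∑ᶠ x : XC p G True, bX red x z =
      ∑ᶠ y : XC p G False ⊕ YD p G, bY red y z) ↔
      ∑ᶠ s : SX p G True, z (kX s) = ∑ᶠ s : SX p G False ⊕ SD p G, z (kY s)) := by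
    intro z hz
    rw [sum_bX red True hz, sum_two, sum_two]
    have h3 : ∑ᶠ x : XC p G False, bY red (Sum.inl x) z = ∑ᶠ s : SX p G False, z (kY (Sum.inl s)) :=
      sum_bX red False hz
    have h4 : ∑ᶠ x : YD p G, bY red (Sum.inr x : XC p G False ⊕ YD p G) z =
        ∑ᶠ s : SD p G, z (kY (Sum.inr s)) :=
      sum_bD red hz
    rw [h3, h4]
  have h2 := cls_iff (F := F) p (kX (p := p) (G := G) (ε := True)) (kY (p := p) (G := G))
  rw [e1, h1]
  have e3 : (∀ z : G → F, IsClassFun z → ∑ᶠ x : XC p G True, bX red x z =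
      ∑ᶠ y : XC p G False ⊕ YD p G, bY red y z) ↔
      ∀ z : G → F, IsClassFun z →
        ∑ᶠ s : SX p G True, z (kX s) = ∑ᶠ s : SX p G False ⊕ SD p G, z (kY s) :=
    forall_congr' fun z => ⟨fun h hz => (e2 z hz).1 (h hz), fun h hz => (e2 z hz).2 (h hz)⟩
  rw [e3, h2]
  refine forall_congr' fun g => ?_
  rw [alt_nCC, card_kY, Nat.ModEq.comm, Nat.modEq_iff_dvd]
  push_cast
  rw [sub_sub]

/-- **the conjecture modulo `p` and commutators** -/
theorem com_iff : DvB red p p G ↔ ∀ g : G,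
    (p : ℤ) ^ ((Nat.card G).factorization p + 1) ∣ altCom p g - trip p g := by
  rw [mod_iff]
  refine forall_congr' fun g => ?_
  rw [← altCom_eq, ← cc_trip]
  have h1 : p ^ (Nat.card G).factorization p * (Nat.card G / p ^ (Nat.card G).factorization p) =
    Nat.card G := Nat.ordProj_mul_ordCompl_eq_self _ _
  have h2 : Nat.Coprime p (Nat.card G / p ^ (Nat.card G).factorization p) :=
    Nat.coprime_ordCompl hp.out Nat.card_pos.ne'
  set a := (Nat.card G).factorization p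
  set m := Nat.card G / p ^ a
  have h3 : (Nat.card G : ℤ) * alternatingSum p G (fun H => (nCC H g : ℤ)) -
      ((Nat.card G * nD p g : ℕ) : ℤ) = (p : ℤ) ^ a * ((m : ℤ) *
        (alternatingSum p G (fun H => (nCC H g : ℤ)) - nD p g)) := by
    rw [← h1]
    push_cast
    ring
  rw [h3, pow_succ, mul_dvd_mul_iff_left (pow_ne_zero _ (by exact_mod_cast hp.out.ne_zero))]
  constructor
  · intro h
    exact Dvd.dvd.mul_left h _
  · intro h
    exact (Int.isCoprime_iff_gcd_eq_one.2 (by simpa using h2)).dvd_of_dvd_mul_left h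

end Pool.Agent.N20.KB
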