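import Pool.Agent.N20.KB.Dd
import Pool.Agent.N20.KB.Tr

/-!
# The conjecture for one group
-/

set_option autoImplicit false
set_option linter.unusedSectionVars false

open scoped Classical BigOperators

noncomputable section

namespace Pool.Agent.N20.KB

open Pool.Agent.Y63.NV
open Pool.Agent.Y63.KR
open Pool.Agent.N85.WM (Wr)
open Pool.Agent.N20.KRM (WrN wrN_finite)

variable {F : Type} [Field F] (red : integralClosure ℤ ℂ →+* F)
  {p : ℕ} [hp : Fact p.Prime] [IsAlgClosed F] [CharP F p]

theorem to_wrN (G : GrpCat.{0}) [hG : Finite G] (n : ℕ) : ∀ m : ℤ,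
    DvB red p ((p : ℤ) ^ n * m) G → DvB red p m (WrN p G n) := by
  induction n with
  | zero =>
    intro m h
    rw [pow_zero, one_mul] at h
    exact h
  | succ n ih =>
    intro m h
    have _i := wrN_finite p G n
    have h1 := ih (p * m) (by rwa [← mul_assoc, ← pow_succ])
    exact dvb_wr (p := p) (G := WrN p G n) red h1

/-- **the conjecture for one group modulo powers of `p`** -/
theorem fix_mod (G : GrpCat.{0}) [hG : Finite G] (m : ℕ) :
    DvB red p ((p : ℤ) ^ m) G ↔ ∀ n < m, DvB red p p (WrN p G n) := by
  constructor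
  · intro h n hn
    refine to_wrN red G n p ?_
    obtain ⟨k, rfl⟩ : ∃ k, m = n + 1 + k := ⟨m - (n + 1), by omega⟩
    intro B hB
    refine Dvd.dvd.trans ?_ (h B hB)
    rw [← pow_succ]
    exact pow_dvd_pow _ (by omega)
  · exact of_wrN red m G

/-- **the conjecture for one group** -/
theorem fix_iff (G : GrpCat.{0}) [hG : Finite G] :
    KRB p red G ↔ ∀ n : ℕ, DvB red p p (WrN p G n) := by
  constructor
  · intro h n
    refine to_wrN red G n p ?_
    intro B hB
    rw [(krb_iff_zero red).1 h |> fun h0 => zero_dvd_iff.1 (h0 B hB)]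
    exact dvd_zero _
  · intro h
    exact krb_of_pow red fun m => of_wrN red m G fun n _ => h n

end Pool.Agent.N20.KB
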