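import Pool.Agent.N20.KB.Mult
import Pool.Agent.N20.KRM.Compl

/-!
# The Frobenius twist of a central element and the alternating sum of the wreath product
-/

set_option autoImplicit false
set_option linter.unusedSectionVars false

open scoped Classical BigOperators

noncomputable section

namespace Pool.Agent.N20.KB

open Pool.Agent.Y63.NV
open Pool.Agent.Y63.KR
open Pool.Agent.Y63.AWC (IsIrreducibleCharacter)
open Pool.Agent.R674.Ce
open Pool.Agent.R674.KB (kdim gk_eq MA MA_map)
open Pool.Agent.N85.WM (IsIdem Wr Base wrF)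
open Pool.Agent.N20.KRM (Cp cp_ex y comm_iff const_of_shift mem_z)
open SemidirectProduct

variable {F : Type} [Field F] [IsAlgClosed F] (red : integralClosure ℤ ℂ →+* F)
  {p : ℕ} [hp : Fact p.Prime] [CharP F p]

theorem knum_frob {J : Type} [Group J] [Finite J] {f : J → F} (hf : IsClassFun f) :
    Knum red (fun x => f x ^ p) 1 = Knum red f 1 := by
  have _i : Fintype J := Fintype.ofFinite J
  have hf' : IsClassFun (fun x => f x ^ p) := fun g x => by
    change f (g * x * g⁻¹) ^ p = f x ^ p
    rw [hf]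
  have h2 : ∀ q : Polynomial F, (q.map (frobenius F p)).rootMultiplicity 1 =
      q.rootMultiplicity 1 := by
    intro q
    have h3 := Polynomial.eq_rootMultiplicity_map (p := q) (f := frobenius F p)
      (frobenius F p).injective 1
    rw [map_one] at h3
    exact h3.symm
  have h1 := MA_map (frobenius F p) (fun E : ConjClasses J => f E.out)
  simp only [frobenius_def] at h1
  have h4 : ∀ (_ : DecidableEq (ConjClasses J)) (_ : Fintype (ConjClasses J))
      (M : Matrix (ConjClasses J) (ConjClasses J) F),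
      (M.map (frobenius F p)).charpoly = M.charpoly.map (frobenius F p) :=
    fun _ _ M => Matrix.charpoly_map M _
  rw [kdim p F red J _ 1 hf', kdim p F red J f 1 hf, gk_eq _ hf', gk_eq _ hf, ← h1]
  exact (congrArg (Polynomial.rootMultiplicity 1) (h4 _ _ _)).trans (h2 _)

theorem aB_frob {G : Type} [Group G] [Finite G] {e : G → F} (he : IsClassFun e) :
    aB red p G (fun x => e x ^ p) 1 = aB red p G e 1 := by
  unfold aB
  congr 1
  funext H
  rw [knum_frob red (cl_res he H)]

variable {G : Type} [Group G] [Finite G]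

omit [Finite G] in
/-- the centraliser of a complement in the base group -/
theorem cent_cp' {R : Subgroup (Wr p G)} (hR : Cp p G R) :
    ∃ (u : ZMod p → G) (f : G ≃* ↥(Base p G ⊓ Subgroup.centralizer (R : Set (Wr p G)))),
      ∀ g : G, ((f g : Wr p G)) = inl (fun i => u i * g * (u i)⁻¹) := by
  obtain ⟨u, rfl⟩ := cp_ex hR
  have hmem : ∀ v : ZMod p → G, (inl v : Wr p G) ∈
      Base p G ⊓ Subgroup.centralizer (Subgroup.zpowers (y u) : Set (Wr p G)) ↔
      ∀ i, (u⁻¹ * v * u : ZMod p → G) i = (u⁻¹ * v * u : ZMod p → G) (i - 1) := by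
    intro v
    rw [← comm_iff, Subgroup.mem_inf, Subgroup.mem_centralizer_iff]
    constructor
    · rintro ⟨-, h⟩
      exact (h _ (Subgroup.mem_zpowers _)).symm
    · intro h
      refine ⟨Pool.Agent.N20.KRM.mem_Base.2 rfl, fun z hz => ?_⟩
      obtain ⟨k, rfl⟩ := (mem_z u z).1 hz
      exact (h.zpow_right k).eq.symm
  let f : G →* ↥(Base p G ⊓ Subgroup.centralizer
      (Subgroup.zpowers (y u) : Set (Wr p G))) :=
    { toFun := fun g => ⟨inl (fun i => u i * g * (u i)⁻¹), (hmem _).2 fun i => by
        simp [mul_assoc]⟩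
      map_one' := by
        apply Subtype.ext
        show (inl (fun i => u i * (1 : G) * (u i)⁻¹) : Wr p G) = 1
        have : (fun i => u i * (1 : G) * (u i)⁻¹) = 1 := by
          funext i
          simp
        rw [this, map_one]
      map_mul' := fun g h => by
        apply Subtype.ext
        show (inl (fun i => u i * (g * h) * (u i)⁻¹) : Wr p G) =
          inl (fun i => u i * g * (u i)⁻¹) * inl (fun i => u i * h * (u i)⁻¹)
        rw [← map_mul]
        congr 1
        funext i
        simp [mul_assoc] }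
  refine ⟨u, MulEquiv.ofBijective f ⟨?_, ?_⟩, fun g => rfl⟩
  · intro g h hgh
    have h1 := inl_injective (congrArg Subtype.val hgh)
    have h2 := congrFun h1 0
    have h3 : u 0 * g * (u 0)⁻¹ = u 0 * h * (u 0)⁻¹ := h2
    exact mul_left_cancel (mul_right_cancel h3)
  · rintro ⟨z, hz⟩
    obtain ⟨v, rfl⟩ := (Subgroup.mem_inf.1 hz).1
    have h1 := (hmem v).1 hz
    refine ⟨(u⁻¹ * v * u : ZMod p → G) 0, ?_⟩
    apply Subtype.ext
    show (inl (fun i => u i * (u⁻¹ * v * u : ZMod p → G) 0 * (u i)⁻¹) : Wr p G) = inl v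
    congr 1
    funext i
    have h2 := const_of_shift h1 i
    show u i * (u⁻¹ * v * u : ZMod p → G) 0 * (u i)⁻¹ = v i
    rw [← h2]
    show u i * ((u i)⁻¹ * v i * u i) * (u i)⁻¹ = v i
    group

/-- the value at the centraliser of a complement -/
theorem aa_cent {e : G → F} (he : IsClassFun e) {R : Subgroup (Wr p G)} (hR : Cp p G R) :
    AA p red ↥(Base p G ⊓ Subgroup.centralizer (R : Set (Wr p G)))
      (fun x : ↥(Base p G ⊓ Subgroup.centralizer (R : Set (Wr p G))) => wrF p e x) 1 =
      (Nat.card G : ℤ) * aB red p G e 1 := by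
  obtain ⟨u, f, hf⟩ := cent_cp' hR
  have _i : Finite (Wr p G) := Pool.Agent.N85.WM.fin_wr p G
  have hz := Pool.Agent.N85.WM.wrF_inZ p G he
  have hcl : IsClassFun (fun x : ↥(Base p G ⊓ Subgroup.centralizer (R : Set (Wr p G))) =>
      wrF p e x) := fun g x => hz.conj g x
  rw [← aa_congr red f hcl 1, ← aB_frob (p := p) red he, ← aa_aB red (z := fun x => e x ^ p)
    (fun g x => by
      change e (g * x * g⁻¹) ^ p = e x ^ p
      rw [he])]
  congr 1
  funext g
  rw [hf]
  unfold wrF
  rw [if_pos (right_inl _)]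
  have h1 : ∀ i : ZMod p, e ((inl (fun i => u i * g * (u i)⁻¹) : Wr p G).left i) = e g := fun i => by
    rw [left_inl]
    exact he _ _
  rw [Finset.prod_congr rfl fun i _ => h1 i, Finset.prod_const, Finset.card_univ, ZMod.card]

/-- the sum over the base group -/
theorem aa_base {e : G → F} (he : IsIdem e) :
    AA p red ↥(Base p G) (fun x : ↥(Base p G) => wrF p e x) 1 =
      (Nat.card (ZMod p → G) : ℤ) * aB red p G e 1 ^ p := by
  have _i : Finite (Wr p G) := Pool.Agent.N85.WM.fin_wr p G
  have hz := Pool.Agent.N85.WM.wrF_inZ p G he.cl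
  have hcl : IsClassFun (fun x : ↥(Base p G) => wrF p e x) := fun g x => hz.conj g x
  rw [← aa_congr red (Pool.Agent.N20.KRM.baseEquiv p G) hcl 1, ← aB_zmod red he,
    ← aa_aB red (cl_tens he.cl)]
  congr 1
  funext x
  unfold wrF
  exact if_pos rfl

/-- **the alternating sum of the wreath product** -/
theorem aB_wr {e : G → F} (he : IsIdem e) :
    (p : ℤ) * aB red p (Wr p G) (wrF p e) 1 = aB red p G e 1 ^ p - aB red p G e 1 := by
  have _i : Finite (Wr p G) := Pool.Agent.N85.WM.fin_wr p G
  have _i2 : Fintype (Subgroup (Wr p G)) := Fintype.ofFinite _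
  have hz := Pool.Agent.N85.WM.wrF_inZ p G he.cl
  have hzc : IsClassFun (wrF p e) := hz.conj
  have h := aa_index red (N := Base p G) Pool.Agent.N20.KRM.base_index hz 1
  rw [aa_aB red hzc, aa_base red he, finsum_eq_sum_of_fintype] at h
  have h1 : ∀ R : Subgroup (Wr p G), (if IsPGroup p R ∧ Base p G ⊔ R = ⊤ ∧ Base p G ⊓ R = ⊥ then
      AA p red ↥(Base p G ⊓ Subgroup.centralizer (R : Set (Wr p G)))
      (fun x : ↥(Base p G ⊓ Subgroup.centralizer (R : Set (Wr p G))) => wrF p e x) 1 else 0) =
      if Cp p G R then (Nat.card G : ℤ) * aB red p G e 1 else 0 := by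
    intro R
    by_cases h : Cp p G R
    · have h' : IsPGroup p R ∧ Base p G ⊔ R = ⊤ ∧ Base p G ⊓ R = ⊥ := h
      rw [if_pos h, if_pos h', aa_cent red he.cl h]
    · have h' : ¬ (IsPGroup p R ∧ Base p G ⊔ R = ⊤ ∧ Base p G ⊓ R = ⊥) := h
      rw [if_neg h, if_neg h']
  rw [Finset.sum_congr rfl fun R _ => h1 R, ← Finset.sum_filter, Finset.sum_const, nsmul_eq_mul]
    at h
  have h2 : ((Finset.univ.filter (fun R : Subgroup (Wr p G) => Cp p G R)).card : ℤ) =
      (Nat.card {R : Subgroup (Wr p G) // Cp p G R} : ℤ) := by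
    rw [Nat.card_eq_fintype_card, Fintype.card_subtype]
  have h3 : (Nat.card {R : Subgroup (Wr p G) // Cp p G R} : ℤ) * (Nat.card G : ℤ) =
      (Nat.card (ZMod p → G) : ℤ) := by
    exact_mod_cast Pool.Agent.N20.KRM.card_cp (p := p) (G := G)
  have h4 : (Nat.card (Wr p G) : ℤ) = (Nat.card (ZMod p → G) : ℤ) * p := by
    have h5 := Pool.Agent.N85.WM.card_wr p G
    rw [h5, Nat.card_fun, Nat.card_zmod]
    push_cast
    rfl
  rw [h2, ← mul_assoc, h3, h4] at h
  have h0 : (Nat.card (ZMod p → G) : ℤ) ≠ 0 := by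
    exact_mod_cast (Nat.card_pos (α := ZMod p → G)).ne'
  apply mul_left_cancel₀ h0
  linear_combination h

end Pool.Agent.N20.KB
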