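import Pool.Agent.R674.KB.Main
import Pool.Agent.R674.Ce.Dz
import Pool.Agent.Y63.NV.Nalt
import Pool.Agent.Y63.NV.PeL
import Pool.Agent.N85.WM.Val
import Pool.Agent.N85.WM.Lw

/-!
# Alternating sums of numbers of characters in blocks and normal subgroups of index `p`
-/

set_option autoImplicit false
set_option linter.unusedSectionVars false

open scoped Classical BigOperators

noncomputable section

namespace Pool.Agent.N20.KB

open Pool.Agent.Y63.NV
open Pool.Agent.Y63.KR
open Pool.Agent.R674.Ce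
open Pool.Agent.R674.KB (kdimh kfilt)

/-- the sum over all chains `∑_σ (-1)^|σ| |Γ_σ| #{χ ∈ Irr(Γ_σ) : ω_χ(z) = c}` -/
def AA (p : ℕ) {F : Type} [Field F] (red : integralClosure ℤ ℂ →+* F) (Γ : Type) [Group Γ]
    (z : Γ → F) (c : F) : ℤ :=
  ∑ᶠ σ : {σ : Set (Subgroup Γ) // IsPChain p σ}, (-1) ^ σ.1.ncard *
    ((Nat.card (chainStabilizer σ.1) : ℤ) * Knum red (fun x : chainStabilizer σ.1 => z x) c)

/-- `|J|` times the number of irreducible traces of `J` with the value `c` at `z` -/
def FL {F : Type} [Field F] {Γ : Type} [Group Γ] (z : Γ → F) (c : F) (J : Subgroup Γ) : ℤ :=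
  Lsum (⊤ : Subgroup J) ⊤ (fun x : J => z x) c

section

variable {F : Type} [Field F] {Γ : Type} [Group Γ] [Finite Γ]

theorem fl_eq (z : Γ → F) (c : F) (H : Subgroup Γ) :
    Lsum ⊤ H (cut z H) c = FL z c H := by
  rw [parts.trl F Γ ⊤ H (cut z H) c (top_sup_eq H), Subgroup.top_subgroupOf]
  have e1 : (fun x : H => cut z H x) = fun x : H => z x := by
    funext x
    unfold cut
    rw [if_pos x.2]
  rw [e1]
  rfl

/-- the number of irreducible traces of `J` with the value `c` at `z` -/
def tr {F : Type} [Field F] {J : Type} [Group J] (z : J → F) (c : F) : ℕ :=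
  Nat.card {φ : J → F // IsIrrTrace φ ∧ True ∧ ∀ x, ∑ᶠ g, z g * φ (g * x) = c * φ x}

theorem lsum_tr {J : Type} [Group J] [Finite J] (z : J → F) (c : F) :
    Lsum (⊤ : Subgroup J) ⊤ z c = (Nat.card J : ℤ) * (tr z c : ℤ) := by
  rw [Pool.Agent.N85.WM.lsum_top]
  congr 2
  refine Pool.Agent.N85.WM.Lw.lnum_card (⊤ : Subgroup J) ⊤ (Subgroup.topEquiv (G := J)).symm z z c
    (fun a => rfl) (fun _ => True) fun φ hφ => ?_
  refine iff_of_true ?_ trivial
  intro h _ x y hxy
  have hc := Pool.Agent.N85.WM.Lw.irr_cl hφ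
  change φ y = φ x
  rw [hxy]
  exact hc h x

theorem tr_iso {J K : Type} [Group J] [Group K] [Finite J] [Finite K] (e : J ≃* K) (z : K → F)
    (c : F) : tr (fun x => z (e x)) c = tr z c := by
  have h1 := Pool.Agent.N85.WM.Lw.lnum_card (⊤ : Subgroup K) ⊤
    (e.trans (Subgroup.topEquiv (G := K)).symm) z (fun x => z (e x)) c
    (fun a => rfl) (fun _ => True) (fun φ hφ => by
      refine iff_of_true ?_ trivial
      intro h _ x y hxy
      have hc := Pool.Agent.N85.WM.Lw.irr_cl hφ
      change φ (e.symm y) = φ (e.symm x)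
      rw [hxy, map_mul, map_mul, map_inv]
      exact hc _ _)
  have h2 := Pool.Agent.N85.WM.Lw.lnum_card (⊤ : Subgroup K) ⊤
    (Subgroup.topEquiv (G := K)).symm z z c
    (fun a => rfl) (fun _ => True) (fun φ hφ => by
      refine iff_of_true ?_ trivial
      intro h _ x y hxy
      have hc := Pool.Agent.N85.WM.Lw.irr_cl hφ
      change φ y = φ x
      rw [hxy]
      exact hc h x)
  unfold tr
  rw [← h1, ← h2]

theorem fl_tr (z : Γ → F) (c : F) (J : Subgroup Γ) :
    FL z c J = (Nat.card J : ℤ) * (tr (fun x : J => z x) c : ℤ) := lsum_tr _ _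

/-- the function `FL` does not depend on the ambient group -/
theorem fl_map (z : Γ → F) (c : F) (K : Subgroup Γ) (J : Subgroup K) :
    FL z c (J.map K.subtype) = FL (fun x : K => z x) c J := by
  have e : J ≃* (J.map K.subtype : Subgroup Γ) :=
    J.equivMapOfInjective K.subtype K.subtype_injective
  have he : ∀ x : J, ((J.equivMapOfInjective K.subtype K.subtype_injective x :
    (J.map K.subtype : Subgroup Γ)) : Γ) = ((x : K) : Γ) := fun x => rfl
  rw [fl_tr, fl_tr, ← tr_iso (J.equivMapOfInjective K.subtype K.subtype_injective),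
    Nat.card_congr (J.equivMapOfInjective K.subtype K.subtype_injective).toEquiv]
  rfl

end

section

variable {p : ℕ} [hp : Fact p.Prime] {F : Type} [Field F] [IsAlgClosed F] [CharP F p]
  {Γ : Type} [Group Γ] [Finite Γ]

/-- the alternating sums for ordinary characters and for irreducible traces -/
theorem aa_fl (red : integralClosure ℤ ℂ →+* F) {z : Γ → F} (hz : IsClassFun z) (c : F) :
    AA p red Γ z c = ∑ᶠ σ : {σ : Set (Subgroup Γ) // IsPChain p σ}, (-1) ^ σ.1.ncard *
      FL z c (chainStabilizer σ.1) := by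
  have _i : Fintype {σ : Set (Subgroup Γ) // IsPChain p σ} := Fintype.ofFinite _
  unfold AA
  rw [finsum_eq_sum_of_fintype, finsum_eq_sum_of_fintype, kl_alt kdimh kfilt red hz c]
  exact Finset.sum_congr rfl fun σ _ => by rw [fl_eq]

/-- the alternating sum for a subgroup -/
theorem chs_fl (red : integralClosure ℤ ℂ →+* F) (z : Γ → F) (c : F) (K : Subgroup Γ)
    (hz : IsClassFun (fun x : K => z x)) :
    chs (Sp p K) (wt K (FL z c)) = AA p red K (fun x : K => z x) c := by
  rw [chs_subgroup, aa_fl red hz c]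
  refine finsum_congr fun σ => ?_
  rw [fl_map]

/-- irreducible traces of `H` and of `N ⊓ H` -/
theorem fl_step {N : Subgroup Γ} [hN : N.Normal] (hi : N.index = p) {z : Γ → F} (hz : InZ N z)
    (c : F) (H : Subgroup Γ) :
    (p : ℤ) * FL z c H = p * FL z c (N ⊓ H) + (p - 1) * Lsum N H z c := by
  by_cases h : N ⊔ H = ⊤
  · have hq : Nat.card (H ⧸ N.subgroupOf H) = p := by
      have h1 : (N.subgroupOf H).index = N.relIndex H := rfl
      have h2 := Subgroup.relIndex_sup_left H N
      rw [h, Subgroup.relIndex_top_right, hi] at h2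
      rw [← Subgroup.index_eq_card, h1, ← h2]
    have hzH : InZ (N.subgroupOf H) (fun x : H => z x) :=
      ⟨fun g x => hz.conj g x, fun x hx => hz.supp x fun h3 => hx (Subgroup.mem_subgroupOf.2 h3)⟩
    have h1 := pell' p F H (N.subgroupOf H) (fun x : H => z x) c hq hzH
    have h2 : Lsum N H z c = Lsum (N.subgroupOf H) ⊤ (fun x : H => z x) c :=
      parts.trl F Γ N H z c h
    have h3 : FL z c (N ⊓ H) = Lsum (⊤ : Subgroup (N.subgroupOf H)) ⊤
        (fun x : N.subgroupOf H => z ((x : H) : Γ)) c := by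
      have h4 := fl_map z c H (N.subgroupOf H)
      rw [Subgroup.subgroupOf_map_subtype] at h4
      exact h4
    rw [h2, h3]
    exact h1
  · rw [lsum_zero h, mul_zero, add_zero]
    have hle : H ≤ N := by
      by_contra hcon
      apply h
      have h1 := Subgroup.relIndex_mul_index (H := N) (K := N ⊔ H) le_sup_left
      rw [hi] at h1
      rcases (Nat.dvd_prime hp.out).1 ⟨_, h1.symm⟩ with h2 | h2
      · exfalso
        rw [Subgroup.relIndex_eq_one] at h2
        exact hcon (le_sup_right.trans h2)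
      · rw [h2] at h1
        have h3 : (N ⊔ H).index = 1 :=
          Nat.eq_of_mul_eq_mul_left hp.out.pos (by rw [h1, mul_one])
        exact Subgroup.index_eq_one.mp h3
    rw [inf_eq_right.2 hle]

/-- **the alternating sum and a normal subgroup of index `p`** -/
theorem aa_index (red : integralClosure ℤ ℂ →+* F) {N : Subgroup Γ} [hN : N.Normal]
    (hi : N.index = p) {z : Γ → F} (hz : InZ N z) (c : F) :
    AA p red Γ z c = AA p red N (fun x : N => z x) c -
      ∑ᶠ R : Subgroup Γ, if IsPGroup p R ∧ N ⊔ R = ⊤ ∧ N ⊓ R = ⊥ then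
        AA p red ↥(N ⊓ Subgroup.centralizer (R : Set Γ))
          (fun x : ↥(N ⊓ Subgroup.centralizer (R : Set Γ)) => z x) c else 0 := by
  have _i : Fintype {σ : Set (Subgroup Γ) // IsPChain p σ} := Fintype.ofFinite _
  have hG : IsPGroup p (Γ ⧸ N) := IsPGroup.of_card (n := 1) (by
    rw [pow_one]; exact hi)
  have hN1 : N ≠ ⊤ := by
    rintro rfl
    rw [Subgroup.index_top] at hi
    exact hp.out.one_lt.ne hi
  have hp0 : (p : ℤ) ≠ 0 := by exact_mod_cast hp.out.ne_zero
  have h1 : AA p red Γ z c = chs (Sp p (⊤ : Subgroup Γ)) (wt N (FL z c)) := by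
    have hz' : IsClassFun z := hz.conj
    have e1 : chs (Sp p (⊤ : Subgroup Γ)) (wt N (FL z c)) =
        ∑ σ : {σ : Set (Subgroup Γ) // IsPChain p σ}, (-1) ^ σ.1.ncard *
          FL z c (N ⊓ chainStabilizer σ.1) := by
      rw [← finsum_eq_sum_of_fintype]
      unfold chs wt
      refine finsum_eq_of_bijective (fun σ : {σ : Set (Subgroup Γ) // σ ⊆ Sp p ⊤ ∧
        IsChain (· ≤ ·) σ} => (⟨σ.1, ⟨σ.2.2, fun P hP => (σ.2.1 hP).1,
          fun P hP => (σ.2.1 hP).2.1⟩⟩ : {σ : Set (Subgroup Γ) // IsPChain p σ})) ⟨?_, ?_⟩ ?_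
      · rintro ⟨σ, _⟩ ⟨τ, _⟩ h
        have h' : σ = τ := congrArg Subtype.val h
        exact Subtype.ext h'
      · rintro ⟨σ, hσ⟩
        exact ⟨⟨σ, fun P hP => ⟨hσ.isPGroup P hP, hσ.ne_bot P hP, le_top⟩, hσ.chain⟩, rfl⟩
      · intro σ
        rfl
    rw [e1, aa_fl red hz' c, finsum_eq_sum_of_fintype]
    apply mul_left_cancel₀ hp0
    rw [Finset.mul_sum, Finset.mul_sum]
    have e2 := lsum_alt (p := p) hG hN1 hz c
    have e3 : ∀ σ : {σ : Set (Subgroup Γ) // IsPChain p σ},
        (p : ℤ) * ((-1) ^ σ.1.ncard * FL z c (chainStabilizer σ.1)) =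
          (p : ℤ) * ((-1) ^ σ.1.ncard * FL z c (N ⊓ chainStabilizer σ.1)) +
          (p - 1) * ((-1) ^ σ.1.ncard * Lsum N (chainStabilizer σ.1) z c) := by
      intro σ
      have e4 := fl_step hi hz c (chainStabilizer σ.1)
      linear_combination (-1) ^ σ.1.ncard * e4
    rw [Finset.sum_congr rfl fun σ _ => e3 σ, Finset.sum_add_distrib, ← Finset.mul_sum (a := (p - 1 : ℤ)),
      e2, mul_zero, add_zero]
  rw [h1, decomposition hi, chs_fl red z c N (fun g x => hz.conj g x)]
  congr 1
  refine finsum_congr fun R => ?_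
  split_ifs
  · exact chs_fl red z c _ (fun g x => hz.conj g x)
  · rfl

end

end Pool.Agent.N20.KB
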