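import Pool.Agent.N20.KB.Step
import Pool.Agent.N20.KRM.Mult
import Pool.Agent.N85.WM.Dzt

/-!
# The conjecture for direct products
-/

set_option autoImplicit false
set_option linter.unusedSectionVars false

open scoped Classical BigOperators

noncomputable section

namespace Pool.Agent.N20.KB

open Pool.Agent.Y63.NV
open Pool.Agent.Y63.KR
open Pool.Agent.Y63.AWC (IsIrreducibleCharacter DZ)
open Pool.Agent.Q99.AS
open Pool.Agent.Helper884.IC (IsIrrChar)
open Pool.Agent.N85.WM (IsIdem BEq exists_idem cl_add cl_smul)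
open Pool.Agent.Y63.NV.B286 (conv_class single_class)

/-! ### blocks of direct products -/

section blk

variable {F : Type} [Field F] {A C : Type} [Group A] [Group C] [Finite A] [Finite C]

theorem conv_ten (f f' : A → F) (g g' : C → F) :
    conv (fun x : A × C => f x.1 * g x.2) (fun x => f' x.1 * g' x.2) =
      fun x => conv f f' x.1 * conv g g' x.2 := by
  funext x
  have _i1 : Fintype A := Fintype.ofFinite A
  have _i2 : Fintype C := Fintype.ofFinite C
  unfold Pool.Agent.Y63.NV.conv
  rw [finsum_eq_sum_of_fintype, finsum_eq_sum_of_fintype, finsum_eq_sum_of_fintype,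
    Finset.sum_mul_sum, ← Finset.sum_product', Finset.univ_product_univ]
  refine Finset.sum_congr rfl fun y _ => ?_
  change f y.1 * g y.2 * (f' (y.1⁻¹ * x.1) * g' (y.2⁻¹ * x.2)) = _
  ring

theorem conv_one_right {J : Type} [Group J] [Finite J] (w : J → F) :
    conv w (Pi.single (1 : J) (1 : F)) = w := by
  funext x
  unfold Pool.Agent.Y63.NV.conv
  rw [finsum_eq_single _ x]
  · simp
  · intro y hy
    rw [Pi.single_eq_of_ne, mul_zero]
    intro h
    exact hy (inv_mul_eq_one.1 h)

theorem cl_ten {f : A → F} (hf : IsClassFun f) {g : C → F} (hg : IsClassFun g) :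
    IsClassFun (fun x : A × C => f x.1 * g x.2) := fun a x => by
  change f (a.1 * x.1 * a.1⁻¹) * g (a.2 * x.2 * a.2⁻¹) = f x.1 * g x.2
  rw [hf, hg]

theorem cl_one {J : Type} [Group J] : IsClassFun (Pi.single (1 : J) (1 : F)) := single_class

theorem single_ten {_i : DecidableEq (A × C)} : (Pi.single (1 : A × C) (1 : F) : A × C → F) =
    fun x => (Pi.single (1 : A) (1 : F) : A → F) x.1 * (Pi.single (1 : C) (1 : F) : C → F) x.2 := by
  funext x
  by_cases h1 : x.1 = 1
  · by_cases h2 : x.2 = 1
    · have h3 : x = 1 := Prod.ext h1 h2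
      subst h3
      simp
    · rw [Pi.single_eq_of_ne h2, mul_zero, Pi.single_eq_of_ne]
      rintro rfl
      exact h2 rfl
  · rw [Pi.single_eq_of_ne h1, zero_mul, Pi.single_eq_of_ne]
    rintro rfl
    exact h1 rfl

/-- the first component of a block -/
def fstB (B : (A × C → F) → F) : (A → F) → F :=
  fun f => B (fun x => f x.1 * (Pi.single (1 : C) (1 : F) : C → F) x.2)

/-- the second component of a block -/
def sndB (B : (A × C → F) → F) : (C → F) → F :=
  fun g => B (fun x => (Pi.single (1 : A) (1 : F) : A → F) x.1 * g x.2)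

variable {B B' : (A × C → F) → F}

theorem fstB_block (hB : IsBlock B) : IsBlock (fstB B) := by
  refine ⟨fun f g hf hg => ?_, fun a f hf => ?_, ?_, fun f g hf hg => ?_⟩
  · unfold fstB
    rw [← hB.add _ _ (cl_ten hf cl_one) (cl_ten hg cl_one)]
    congr 1
    funext x
    change (f x.1 + g x.1) * _ = _
    rw [add_mul]
    rfl
  · unfold fstB
    rw [← hB.smul _ _ (cl_ten hf cl_one)]
    congr 1
    funext x
    change a * f x.1 * _ = a * (f x.1 * _)
    rw [mul_assoc]
  · exact (congrArg B single_ten.symm).trans hB.one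
  · unfold fstB
    rw [← hB.mul _ _ (cl_ten hf cl_one) (cl_ten hg cl_one), conv_ten,
      Pool.Agent.R674.KB.conv_one_left]

theorem sndB_block (hB : IsBlock B) : IsBlock (sndB B) := by
  refine ⟨fun f g hf hg => ?_, fun a f hf => ?_, ?_, fun f g hf hg => ?_⟩
  · unfold sndB
    rw [← hB.add _ _ (cl_ten cl_one hf) (cl_ten cl_one hg)]
    congr 1
    funext x
    change _ * (f x.2 + g x.2) = _
    rw [mul_add]
    rfl
  · unfold sndB
    rw [← hB.smul _ _ (cl_ten cl_one hf)]
    congr 1
    funext x
    change _ * (a * f x.2) = a * (_ * f x.2)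
    ring
  · exact (congrArg B single_ten.symm).trans hB.one
  · unfold sndB
    rw [← hB.mul _ _ (cl_ten cl_one hf) (cl_ten cl_one hg), conv_ten,
      Pool.Agent.R674.KB.conv_one_left]

theorem block_ten (hB : IsBlock B) {f : A → F} (hf : IsClassFun f) {g : C → F}
    (hg : IsClassFun g) : B (fun x => f x.1 * g x.2) = fstB B f * sndB B g := by
  unfold fstB sndB
  rw [← hB.mul _ _ (cl_ten hf cl_one) (cl_ten cl_one hg), conv_ten,
    Pool.Agent.R674.KB.conv_one_left, conv_one_right]

theorem block_sum {G : Type} [Group G] {D : (G → F) → F} (hD : IsBlock D) {ι : Type}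
    (a : ι → F) (f : ι → G → F) (hf : ∀ i, IsClassFun (f i)) (T : Finset ι) :
    IsClassFun (∑ i ∈ T, a i • f i) ∧ D (∑ i ∈ T, a i • f i) = ∑ i ∈ T, a i * D (f i) := by
  induction T using Finset.induction_on with
  | empty =>
    have h0 : IsClassFun (0 : G → F) := fun _ _ => rfl
    refine ⟨by rw [Finset.sum_empty]; exact h0, ?_⟩
    rw [Finset.sum_empty, Finset.sum_empty]
    have := hD.smul 0 0 h0
    rwa [zero_smul, zero_mul] at this
  | insert k T hk ih =>
    rw [Finset.sum_insert hk, Finset.sum_insert hk]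
    refine ⟨cl_add (cl_smul _ (hf k)) ih.1, ?_⟩
    rw [hD.add _ _ (cl_smul _ (hf k)) ih.1, hD.smul _ _ (hf k), ih.2]

/-- a block of a direct product is determined by its components -/
theorem block_ext (hB : IsBlock B) (hB' : IsBlock B') (h1 : BEq (fstB B) (fstB B'))
    (h2 : BEq (sndB B) (sndB B')) : BEq B B' := by
  intro f hf
  have _i1 : Fintype (ConjClasses A) := Fintype.ofFinite _
  have _i2 : Fintype (ConjClasses C) := Fintype.ofFinite _
  have hind : ∀ {J : Type} [Group J] (D : ConjClasses J),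
      IsClassFun (fun x : J => if ConjClasses.mk x = D then (1 : F) else 0) := by
    intro J _ D g x
    have h3 : ConjClasses.mk (g * x * g⁻¹) = ConjClasses.mk x :=
      ConjClasses.mk_eq_mk_iff_isConj.2 (isConj_iff.2 ⟨g, rfl⟩).symm
    simp only [h3]
  have h3 : f = ∑ D : ConjClasses A × ConjClasses C, f (D.1.out, D.2.out) •
      (fun x : A × C => (if ConjClasses.mk x.1 = D.1 then (1 : F) else 0) *
        (if ConjClasses.mk x.2 = D.2 then (1 : F) else 0)) := by
    funext x
    rw [Finset.sum_apply, Finset.sum_eq_single (ConjClasses.mk x.1, ConjClasses.mk x.2)]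
    · rw [Pi.smul_apply, if_pos rfl, if_pos rfl, smul_eq_mul, mul_one, mul_one]
      have h4 : IsConj x ((ConjClasses.mk x.1).out, (ConjClasses.mk x.2).out) := by
        rw [isConj_prod]
        exact ⟨ConjClasses.mk_eq_mk_iff_isConj.mp (Quotient.out_eq _).symm,
          ConjClasses.mk_eq_mk_iff_isConj.mp (Quotient.out_eq _).symm⟩
      obtain ⟨g, hg⟩ := isConj_iff.1 h4
      rw [← hg, hf]
    · rintro ⟨D1, D2⟩ _ hne
      rw [Pi.smul_apply]
      by_cases h4 : ConjClasses.mk x.1 = D1
      · by_cases h5 : ConjClasses.mk x.2 = D2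
        · exact absurd (Prod.ext h4.symm h5.symm) hne
        · rw [if_neg h5, mul_zero, smul_zero]
      · rw [if_neg h4, zero_mul, smul_zero]
    · intro h
      exact absurd (Finset.mem_univ _) h
  have hcl : ∀ D : ConjClasses A × ConjClasses C,
      IsClassFun (fun x : A × C => (if ConjClasses.mk x.1 = D.1 then (1 : F) else 0) *
        (if ConjClasses.mk x.2 = D.2 then (1 : F) else 0)) := fun D => cl_ten (hind D.1) (hind D.2)
  rw [h3, (block_sum hB _ _ hcl _).2, (block_sum hB' _ _ hcl _).2]
  refine Finset.sum_congr rfl fun D _ => ?_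
  congr 1
  rw [block_ten hB (hind D.1) (hind D.2), block_ten hB' (hind D.1) (hind D.2), h1 _ (hind D.1),
    h2 _ (hind D.2)]

end blk

variable {F : Type} [Field F] (red : integralClosure ℤ ℂ →+* F)

/-! ### counting with one function -/

section one

variable {p : ℕ} {G : Type} [Group G] [Finite G]

variable [hp : Fact p.Prime] [IsAlgClosed F] [CharP F p]

/-- counting in a block with one function -/
theorem dB_of {B : (G → F) → F} {z : G → F} {c : F}
    (key : ∀ B' : (G → F) → F, IsBlock B' → (BEq B' B ↔ B' z = c)) :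
    dB red p B = aB red p G z c - Nw p red (⊥ : Subgroup G) z c := by
  rw [dB_eq, dz_eq]
  congr 2
  · exact Nat.card_congr (Equiv.subtypeEquivRight fun x => key _ (bX_block red x))
  · exact Nat.card_congr (Equiv.subtypeEquivRight fun x => key _ (bY_block red x))

theorem cnt_dvd' {m : ℤ} (h : DvB red p m G) {z : G → F} (hz : IsClassFun z) (c : F) :
    m ∣ aB red p G z c - Nw p red (⊥ : Subgroup G) z c := by
  have h1 := cnt_dvd (p := p) red m.natAbs (fun B hB => Int.natAbs_dvd.2 (h B hB)) hz c
  exact Int.natAbs_dvd.1 h1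

end one

/-! ### isomorphisms -/

theorem nw_iso {p : ℕ} {G H : Type} [Group G] [Group H] [Finite G] [Finite H] (φ : G ≃* H)
    {z : H → F} (hz : IsClassFun z) (c : F) :
    Nw p red (⊥ : Subgroup G) (fun x => z (φ x)) c = Nw p red (⊥ : Subgroup H) z c := by
  unfold Nw
  have hb : ∀ x : G, x ∈ (⊥ : Subgroup G) ↔ φ x ∈ (⊥ : Subgroup H) := fun x => by
    rw [Subgroup.mem_bot, Subgroup.mem_bot]
    exact (MulEquiv.map_eq_one_iff φ).symm
  have hb' : ∀ x : H, x ∈ (⊥ : Subgroup H) ↔ φ.symm x ∈ (⊥ : Subgroup G) := fun x => by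
    rw [Subgroup.mem_bot, Subgroup.mem_bot]
    exact (MulEquiv.map_eq_one_iff φ.symm).symm
  have hcv : ∀ χ : H → ℂ, IsWt p (⊥ : Subgroup H) χ →
      centralValue red (fun x => χ (φ x)) (fun x => z (φ x)) = centralValue red χ z := fun χ hχ =>
    Pool.Agent.Y286.NV.centralValue_comp red φ χ (Pool.Agent.Y286.NV.irr_class hχ.irr) z hz
  refine Nat.card_congr
    { toFun := fun χ => ⟨fun x => χ.1 (φ.symm x),
        Pool.Agent.Y286.NV.isWt_comp φ.symm hb' χ.2.1, ?_⟩
      invFun := fun χ => ⟨fun x => χ.1 (φ x), Pool.Agent.Y286.NV.isWt_comp φ hb χ.2.1, ?_⟩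
      left_inv := fun χ => Subtype.ext (funext fun x => by
        change χ.1 (φ.symm (φ x)) = χ.1 x
        rw [φ.symm_apply_apply])
      right_inv := fun χ => Subtype.ext (funext fun x => by
        change χ.1 (φ (φ.symm x)) = χ.1 x
        rw [φ.apply_symm_apply]) }
  · rw [← hcv _ (Pool.Agent.Y286.NV.isWt_comp φ.symm hb' χ.2.1)]
    have h1 : (fun x : G => χ.1 (φ.symm (φ x))) = χ.1 := by
      funext x
      rw [φ.symm_apply_apply]
    rw [h1]
    exact χ.2.2
  · rw [hcv _ χ.2.1]
    exact χ.2.2

section prod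

variable {p : ℕ} [hp : Fact p.Prime] [IsAlgClosed F] [CharP F p]

theorem dvb_iso {m : ℤ} {G H : Type} [Group G] [Group H] [Finite G] [Finite H] (φ : G ≃* H)
    (h : DvB red p m G) : DvB red p m H := by
  intro B hB
  obtain ⟨e, he, hd, -⟩ := idem_dB (p := p) red hB
  rw [hd, ← aB_iso (p := p) red φ he.cl 1, ← nw_iso (p := p) red φ he.cl 1]
  refine cnt_dvd' red h ?_ 1
  intro g x
  change e (φ (g * x * g⁻¹)) = e (φ x)
  rw [map_mul, map_mul, map_inv, he.cl]

variable {A C : Type} [Group A] [Group C] [Finite A] [Finite C]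

theorem wt_dft {χ : A → ℂ} : IsWt p (⊥ : Subgroup A) χ ↔ IsIrrChar χ ∧ Dft p 0 χ := by
  have _i : Fintype A := Fintype.ofFinite A
  rw [Pool.Agent.N85.WM.Dzt.dz_iff]
  refine and_congr Iff.rfl ?_
  unfold Dft
  simp only [add_zero]
  exact Iff.rfl

/-- characters of defect zero of direct products -/
theorem nw_prod {e : A → F} (he : IsIdem e) {e' : C → F} (he' : IsIdem e') :
    Nw p red (⊥ : Subgroup (A × C)) (fun x => e x.1 * e' x.2) 1 =
      Nw p red (⊥ : Subgroup A) e 1 * Nw p red (⊥ : Subgroup C) e' 1 := by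
  have _i1 : Fintype A := Fintype.ofFinite A
  have _i2 : Fintype C := Fintype.ofFinite C
  have hw : ∀ {J : Type} [Group J] [Finite J] (z : J → F),
      Nw p red (⊥ : Subgroup J) z 1 = Nat.card {χ : J → ℂ // IsIrrChar χ ∧ (Dft p 0 χ ∧
        centralValue red χ z = 1)} := by
    intro J _ _ z
    unfold Nw
    refine Nat.card_congr (Equiv.subtypeEquivRight fun χ => ?_)
    rw [wt_dft, and_assoc]
  rw [hw, hw, hw]
  have h := card_prod (Finset.univ : Finset Unit) (fun χ : A × C → ℂ => Dft p 0 χ ∧
      centralValue red χ (fun x => e x.1 * e' x.2) = 1)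
    (fun _ θ => Dft p 0 θ ∧ centralValue red θ e = 1)
    (fun _ ψ => Dft p 0 ψ ∧ centralValue red ψ e' = 1) (by
      intro θ ψ hθ hψ
      rw [Dft_ten hθ hψ, cv_ten red hθ hψ he.cl he'.cl]
      have h5 := he.val _ (Pool.Agent.Y930.NV.cvh F red A θ hθ)
      have h6 := he'.val _ (Pool.Agent.Y930.NV.cvh F red C ψ hψ)
      constructor
      · rintro ⟨⟨⟨i, j⟩, hi, h1, h2⟩, h4⟩
        rw [Finset.HasAntidiagonal.mem_antidiagonal] at hi
        have h3 : i = 0 := by have : i + j = 0 := hi; omega
        have h3' : j = 0 := by have : i + j = 0 := hi; omega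
        subst h3 h3'
        refine ⟨(), Finset.mem_univ _, ⟨h1, ?_⟩, h2, ?_⟩
        · rcases h5 with h5 | h5
          · rw [h5, zero_mul] at h4
            exact absurd h4 zero_ne_one
          · exact h5
        · rcases h6 with h6 | h6
          · rw [h6, mul_zero] at h4
            exact absurd h4 zero_ne_one
          · exact h6
      · rintro ⟨_, _, ⟨h1, h3⟩, h2, h4⟩
        refine ⟨⟨(0, 0), by simp, h1, h2⟩, ?_⟩
        rw [h3, h4, mul_one])
    (fun _ _ _ _ _ _ _ _ _ _ => rfl)
  rw [h, Finset.univ_unique, Finset.sum_singleton]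

/-- **the conjecture for a direct product** -/
theorem dvb_prod {m : ℤ} (h1 : DvB red p m A) (h2 : DvB red p m C) : DvB red p m (A × C) := by
  intro B hB
  obtain ⟨e, he, he1, he2⟩ := exists_idem (fstB_block hB)
  obtain ⟨e', he', he1', he2'⟩ := exists_idem (sndB_block hB)
  have key : ∀ B' : (A × C → F) → F, IsBlock B' →
      (BEq B' B ↔ B' (fun x => e x.1 * e' x.2) = 1) := by
    intro B' hB'
    constructor
    · intro h
      rw [h _ (cl_ten he.cl he'.cl), block_ten hB he.cl he'.cl, he1, he1', mul_one]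
    · intro h
      rw [block_ten hB' he.cl he'.cl] at h
      have h5 : fstB B' e = 1 := by
        rcases he.val _ (fstB_block hB') with h5 | h5
        · rw [h5, zero_mul] at h
          exact absurd h zero_ne_one
        · exact h5
      have h6 : sndB B' e' = 1 := by
        rcases he'.val _ (sndB_block hB') with h6 | h6
        · rw [h6, mul_zero] at h
          exact absurd h zero_ne_one
        · exact h6
      exact (block_ext hB hB' (he2 _ (fstB_block hB') h5) (he2' _ (sndB_block hB') h6)).symm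
  rw [dB_of red key, aB_prod red he he'.cl, nw_prod red he he']
  have h3 := cnt_dvd' red h1 he.cl 1
  have h4 := cnt_dvd' red h2 he'.cl 1
  have e1 : aB red p A e 1 * aB red p C e' 1 -
      ((Nw p red (⊥ : Subgroup A) e 1 * Nw p red (⊥ : Subgroup C) e' 1 : ℕ) : ℤ) =
      aB red p A e 1 * (aB red p C e' 1 - Nw p red (⊥ : Subgroup C) e' 1) +
        (Nw p red (⊥ : Subgroup C) e' 1 : ℤ) *
          (aB red p A e 1 - Nw p red (⊥ : Subgroup A) e 1) := by
    push_cast
    ring
  rw [e1]
  exact dvd_add (Dvd.dvd.mul_left h4 _) (Dvd.dvd.mul_left h3 _)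

theorem dvb_fin {m : ℤ} (h : DvB red p m A) (n : ℕ) : DvB red p m (Fin (n + 1) → A) := by
  induction n with
  | zero => exact dvb_iso red (MulEquiv.piUnique (fun _ : Fin 1 => A)).symm h
  | succ n ih =>
    let φ : (Fin (n + 2) → A) ≃* A × (Fin (n + 1) → A) :=
      { toFun := fun x => (x 0, fun i => x i.succ)
        invFun := fun y => Fin.cons y.1 y.2
        left_inv := fun x => by
          funext i
          refine Fin.cases ?_ (fun j => ?_) i
          · rfl
          · rfl
        right_inv := fun y => rfl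
        map_mul' := fun x y => rfl }
    exact dvb_iso red φ.symm (dvb_prod red h ih)

theorem dvb_zmod {m : ℤ} (h : DvB red p m A) : DvB red p m (ZMod p → A) := by
  obtain ⟨n, hn⟩ : ∃ n, p = n + 1 := ⟨p - 1, by have := hp.out.pos; omega⟩
  have h1 := dvb_fin (p := p) red h n
  rw [← hn] at h1
  exact dvb_iso red (MulEquiv.arrowCongr (ZMod.finEquiv p).toEquiv (MulEquiv.refl A)) h1

end prod

end Pool.Agent.N20.KB
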