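import Pool.Agent.N20.KB.Dzw
import Pool.Agent.N20.KRM.Arith
import Pool.Agent.N20.KRM.Main

/-!
# From the wreath product to the group
-/

set_option autoImplicit false
set_option linter.unusedSectionVars false

open scoped Classical BigOperators

noncomputable section

namespace Pool.Agent.N20.KB

open Pool.Agent.Y63.NV
open Pool.Agent.Y63.KR
open Pool.Agent.N85.WM (IsIdem Wr Base wrF)
open Pool.Agent.N20.KRM (WrN wrN_finite)

variable {F : Type} [Field F] (red : integralClosure ℤ ℂ →+* F)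

/-- the conjecture for all blocks of `G` modulo `m` -/
def DvB (p : ℕ) (m : ℤ) (G : Type) [Group G] : Prop :=
  ∀ B : (G → F) → F, IsBlock B → m ∣ dB red p B

variable [IsAlgClosed F] {p : ℕ} [hp : Fact p.Prime] [CharP F p]

/-- **one step** -/
theorem step {G : Type} [Group G] [Finite G] (m : ℕ)
    (h : DvB red p ((p : ℤ) ^ m) (Wr p G)) (h1 : DvB red p p G) :
    DvB red p ((p : ℤ) ^ (m + 1)) G := by
  have _i : Finite (Wr p G) := Pool.Agent.N85.WM.fin_wr p G
  intro B hB
  obtain ⟨e, he, hd, -, hz, -⟩ := idem_dB (p := p) red hB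
  have hle : Nw p red (⊥ : Subgroup G) e 1 ≤ 1 := by
    rw [← hz]
    exact nw_le_one red
  have h2 := aB_wr (p := p) red he
  have h3 := nw_wr (p := p) red he hle
  have h4 := cnt_dvd (p := p) red (p ^ m) (fun B' hB' => by
    have := h B' hB'
    push_cast
    exact this) (z := wrF p e) (Pool.Agent.N85.WM.wrF_inZ p G he.cl).conj 1
  have h5 := h1 B hB
  rw [hd] at h5 ⊢
  have h6 : (p : ℤ) * (Nw p red (⊥ : Subgroup (Wr p G)) (wrF p e) 1 : ℤ) =
      (Nw p red (⊥ : Subgroup G) e 1 : ℤ) ^ p - Nw p red (⊥ : Subgroup G) e 1 := by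
    rw [h3]
    have h7 : Nw p red (⊥ : Subgroup G) e 1 = 0 ∨ Nw p red (⊥ : Subgroup G) e 1 = 1 := by omega
    rcases h7 with h7 | h7
    · rw [h7]
      simp [hp.out.ne_zero]
    · rw [h7]
      simp
  rw [Pool.Agent.N20.KRM.next hp.out.ne_zero h2 h6]
  refine ⟨h5, ?_⟩
  push_cast at h4
  exact h4

theorem wrN_succ (G : GrpCat.{0}) (n : ℕ) :
    WrN p (GrpCat.of (Wr p G)) n = WrN p G (n + 1) := by
  induction n with
  | zero => rfl
  | succ n ih =>
    show GrpCat.of (Wr p (WrN p (GrpCat.of (Wr p G)) n)) = GrpCat.of (Wr p (WrN p G (n + 1)))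
    rw [ih]

/-- **the conjecture for one group modulo powers of `p`** -/
theorem of_wrN (m : ℕ) : ∀ (G : GrpCat.{0}) [Finite G],
    (∀ n < m, DvB red p p (WrN p G n)) → DvB red p ((p : ℤ) ^ m) G := by
  induction m with
  | zero =>
    intro G _ _ B _
    rw [pow_zero]
    exact one_dvd _
  | succ m ih =>
    intro G hG h
    have _i : Finite (Wr p G) := Pool.Agent.N85.WM.fin_wr p G
    have _i2 : Finite (GrpCat.of (Wr p G)) := inferInstanceAs (Finite (Wr p G))
    refine step red m ?_ (h 0 (Nat.succ_pos m))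
    refine ih (GrpCat.of (Wr p G)) fun n hn => ?_
    have h1 := h (n + 1) (by omega)
    rw [← wrN_succ] at h1
    exact h1

/-- a number divisible by all powers of `p` -/
theorem eq_zero_of_pow {a : ℤ} (h : ∀ m : ℕ, (p : ℤ) ^ m ∣ a) : a = 0 := by
  by_contra hne
  have h3 := Int.natAbs_dvd_natAbs.2 (h a.natAbs)
  rw [Int.natAbs_pow, Int.natAbs_natCast] at h3
  have h4 := Nat.le_of_dvd (Int.natAbs_pos.2 hne) h3
  exact absurd h4 (not_le.2 (Nat.lt_pow_self hp.out.one_lt))

omit [IsAlgClosed F] [CharP F p] hp in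
theorem krb_iff_zero {G : Type} [Group G] : KRB p red G ↔ DvB red p 0 G := by
  refine forall_congr' fun B => imp_congr_right fun _ => ?_
  rw [zero_dvd_iff]
  unfold dB
  exact sub_eq_zero.symm

theorem krb_of_pow {G : Type} [Group G] (h : ∀ m : ℕ, DvB red p ((p : ℤ) ^ m) G) :
    KRB p red G := by
  rw [krb_iff_zero]
  intro B hB
  rw [eq_zero_of_pow (p := p) fun m => h m B hB]

end Pool.Agent.N20.KB
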